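import Mathlib

/-!
# Labelled structures on a lattice and their renormalisation

A labelled set of points `P` in an abelian group, each point with a type `I p`, a contact `J p`
and a bit `B p`.  The bases of the smallest blocks form a labelled set with the doubled vectors.
-/

namespace Pool.Agent.Lib_helper75.Sparse

/-- The third digit coded by a bit: the smallest (largest) element outside `{i, j}`. -/
def thd (i j : Fin 4) (b : Bool) : Fin 4 :=
  if b then (if i ≠ 3 ∧ j ≠ 3 then 3 else if i ≠ 2 ∧ j ≠ 2 then 2 else 1)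
  else (if i ≠ 0 ∧ j ≠ 0 then 0 else if i ≠ 1 ∧ j ≠ 1 then 1 else 2)

/-- The first of the three digits outside `{a, c}`. -/
def lam (i j : Fin 4) (b : Bool) (a c : Fin 4) : Fin 4 :=
  if i ≠ a ∧ i ≠ c then i else if j ≠ a ∧ j ≠ c then j else thd i j b

/-- Pairs other than `{1, 2}`. -/
def good (a c : Fin 4) : Prop := ¬ (a = 1 ∧ c = 2) ∧ ¬ (a = 2 ∧ c = 1)

instance (a c : Fin 4) : Decidable (good a c) := by unfold good; infer_instance

theorem good_symm {a c : Fin 4} (h : good a c) : good c a := by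
  revert a c; decide

theorem lam_symm (i j : Fin 4) (b : Bool) (a c : Fin 4) : lam i j b a c = lam i j b c a := by
  revert i j b a c; decide

theorem lam_of_ne {a j c : Fin 4} (b : Bool) (h1 : j ≠ a) (h2 : j ≠ c) : lam a j b a c = j := by
  revert a j c b; decide

theorem lam_of_eq (a c : Fin 4) (b : Bool) : lam a c b a c = thd a c b := by
  revert a c b; decide

theorem thd_symm (a c : Fin 4) (b : Bool) : thd a c b = thd c a b := by
  revert a c b; decide

theorem thd_inj {a c : Fin 4} (h : a ≠ c) {b b' : Bool} (hb : thd a c b = thd a c b') : b = b' := by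
  revert a c b b'; decide

/-- A labelled structure. -/
structure Lab {V : Type} [AddCommGroup V] (t : Fin 4 → V) (P : V → Prop) (I J : V → Fin 4)
    (B : V → Bool) : Prop where
  ne : ∀ p, P p → J p ≠ I p
  ty : ∀ p, P p → ∀ a c, a ≠ c → (P (p + (t a - t c)) ↔ (c = I p ∨ (a = I p ∧ c = J p)))
  sib : ∀ p, P p → ∀ a, I (p + (t a - t (I p))) = a
  conI : ∀ p, P p → I (p + (t (I p) - t (J p))) = J p
  conJ : ∀ p, P p → J (p + (t (I p) - t (J p))) = I p
  conB : ∀ p, P p → B (p + (t (I p) - t (J p))) = B p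
  line : ∀ p, P p → ∀ a, a ≠ I p → good a (I p) →
    lam (I p) (J p) (B p) (I p) a =
      lam a (J (p + (t a - t (I p)))) (B (p + (t a - t (I p)))) (I p) a

section renorm

variable {V : Type} [AddCommGroup V] {t : Fin 4 → V} {P : V → Prop} {I J : V → Fin 4}
  {B : V → Bool}

theorem Lab.psib (h : Lab t P I J B) {p : V} (hp : P p) (a : Fin 4) :
    P (p + (t a - t (I p))) := by
  by_cases ha : a = I p
  · subst ha; simpa using hp
  · exact (h.ty p hp a (I p) ha).2 (Or.inl rfl)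

theorem Lab.pcon (h : Lab t P I J B) {p : V} (hp : P p) : P (p + (t (I p) - t (J p))) :=
  (h.ty p hp (I p) (J p) (h.ne p hp).symm).2 (Or.inr ⟨rfl, rfl⟩)

/-- Bases of blocks. -/
def base (P : V → Prop) (I : V → Fin 4) (u : V) : Prop := P u ∧ I u = 0

/-- Corners of blocks. -/
def cor (t : Fin 4 → V) (u : V) (a : Fin 4) : V := u + (t a - t 0)

theorem Lab.pcor (h : Lab t P I J B) {u : V} (hu : base P I u) (a : Fin 4) : P (cor t u a) := by
  have := h.psib hu.1 a
  rwa [hu.2] at this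

theorem Lab.icor (h : Lab t P I J B) {u : V} (hu : base P I u) (a : Fin 4) :
    I (cor t u a) = a := by
  have := h.sib u hu.1 a
  rwa [hu.2] at this

/-- A point of type `c` gives the base `p + (t 0 - t c)`. -/
theorem Lab.base_of (h : Lab t P I J B) {p : V} (hp : P p) {c : Fin 4} (hc : I p = c) :
    base P I (p + (t 0 - t c)) := by
  subst hc
  exact ⟨h.psib hp 0, h.sib p hp 0⟩

theorem Lab.ncor (h : Lab t P I J B) {u : V} (hu : base P I u) (a : Fin 4) :
    J (cor t u a) ≠ a := by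
  have := h.ne _ (h.pcor hu a)
  rwa [h.icor hu a] at this

/-- The block in contact. -/
theorem Lab.nbr (h : Lab t P I J B) {u : V} (hu : base P I u) {a c : Fin 4} (hac : a ≠ c) :
    base P I (u + (2 : ℤ) • (t a - t c)) ↔ J (cor t u a) = c := by
  constructor
  · intro hu'
    have h1 := h.pcor hu' c
    have e : cor t (u + (2 : ℤ) • (t a - t c)) c = cor t u a + (t a - t c) := by
      unfold cor; module
    rw [e] at h1
    have h2 := (h.ty _ (h.pcor hu a) a c hac).1 h1
    rw [h.icor hu a] at h2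
    rcases h2 with h2 | h2
    · exact absurd h2.symm hac
    · exact h2.2.symm
  · intro hj
    have h1 := h.pcon (h.pcor hu a)
    have h2 := h.conI _ (h.pcor hu a)
    rw [h.icor hu a, hj] at h1 h2
    have h3 := h.base_of h1 h2
    have e : cor t u a + (t a - t c) + (t 0 - t c) = u + (2 : ℤ) • (t a - t c) := by
      unfold cor; module
    rwa [e] at h3

theorem cor_nbr (t : Fin 4 → V) (u : V) (a c : Fin 4) :
    cor t (u + (2 : ℤ) • (t a - t c)) c = cor t u a + (t a - t c) := by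
  unfold cor; module

theorem Lab.nbrJ (h : Lab t P I J B) {u : V} (hu : base P I u) {a c : Fin 4}
    (hj : J (cor t u a) = c) : J (cor t (u + (2 : ℤ) • (t a - t c)) c) = a := by
  have h2 := h.conJ _ (h.pcor hu a)
  rw [h.icor hu a, hj] at h2
  rwa [cor_nbr]

theorem Lab.nbrB (h : Lab t P I J B) {u : V} (hu : base P I u) {a c : Fin 4}
    (hj : J (cor t u a) = c) :
    B (cor t (u + (2 : ℤ) • (t a - t c)) c) = B (cor t u a) := by
  have h2 := h.conB _ (h.pcor hu a)
  rw [h.icor hu a, hj] at h2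
  rwa [cor_nbr]

theorem Lab.lineCor (h : Lab t P I J B) {u : V} (hu : base P I u) {a c : Fin 4} (hac : a ≠ c)
    (hg : good a c) :
    lam a (J (cor t u a)) (B (cor t u a)) a c = lam c (J (cor t u c)) (B (cor t u c)) a c := by
  have h1 := h.line _ (h.pcor hu a) c (by rw [h.icor hu a]; exact hac.symm)
    (by rw [h.icor hu a]; exact good_symm hg)
  rw [h.icor hu a] at h1
  have e : cor t u a + (t c - t a) = cor t u c := by unfold cor; module
  rwa [e] at h1

/-- The pair constraints. -/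
theorem Lab.pair (h : Lab t P I J B) {u : V} (hu : base P I u) {a c : Fin 4} (hac : a ≠ c)
    (hg : good a c) (h1 : J (cor t u a) ≠ c) (h2 : J (cor t u c) ≠ a) :
    J (cor t u a) = J (cor t u c) := by
  have h3 := h.lineCor hu hac hg
  rw [lam_of_ne _ (h.ncor hu a) h1, lam_symm, lam_of_ne _ (h.ncor hu c) h2] at h3
  exact h3

/-- Two neighbours of a block at the corners `a`, `b` in direction `d` force the third. -/
theorem Lab.geo (h : Lab t P I J B) {u : V} (hu : base P I u) {a b c d : Fin 4}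
    (hab : a ≠ b) (had : a ≠ d) (hbd : b ≠ d) (hcd : c ≠ d) (hac : a ≠ c) (hbc : b ≠ c)
    (ja : J (cor t u a) = d) (jb : J (cor t u b) = d) (g1 : good b c) (g2 : good d c) :
    J (cor t u c) = d := by
  -- the block at the corner `a`
  have ba : base P I (u + (2 : ℤ) • (t a - t d)) := (h.nbr hu had).2 ja
  have bb : base P I (u + (2 : ℤ) • (t b - t d)) := (h.nbr hu hbd).2 jb
  have j1 : J (cor t (u + (2 : ℤ) • (t a - t d)) d) = a := h.nbrJ hu ja
  have e1 : u + (2 : ℤ) • (t b - t d) = u + (2 : ℤ) • (t a - t d) + (2 : ℤ) • (t b - t a) := by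
    module
  have j2 : J (cor t (u + (2 : ℤ) • (t a - t d)) b) = a := by
    rw [e1] at bb
    exact (h.nbr ba hab.symm).1 bb
  have j3 : J (cor t (u + (2 : ℤ) • (t a - t d)) c) = a := by
    by_contra hne
    have k1 := h.pair ba hbc g1 (by rw [j2]; exact hac)
    have k2 := h.pair ba hcd.symm g2 (by rw [j1]; exact hac)
    rw [j2] at k1
    rw [j1] at k2
    by_cases hb : J (cor t (u + (2 : ℤ) • (t a - t d)) c) = b
    · apply hne
      refine (k2 ?_).symm
      rw [hb]; exact hbd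
    · exact hne (k1 hb).symm
  have bc : base P I (u + (2 : ℤ) • (t a - t d) + (2 : ℤ) • (t c - t a)) :=
    (h.nbr ba hac.symm).2 j3
  have e2 : u + (2 : ℤ) • (t a - t d) + (2 : ℤ) • (t c - t a) = u + (2 : ℤ) • (t c - t d) := by
    module
  rw [e2] at bc
  exact (h.nbr hu hcd).1 bc

def hyps (j0 j1 j2 j3 : Fin 4) : Bool :=
  ((((((((((((j0 != 0) && (j1 != 1)) && (j2 != 2)) && (j3 != 3)) &&
    ((j0 == 1 || j1 == 0) || j0 == j1)) && ((j0 == 2 || j2 == 0) || j0 == j2)) &&
    ((j0 == 3 || j3 == 0) || j0 == j3)) && ((j1 == 3 || j3 == 1) || j1 == j3)) &&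
    ((j2 == 3 || j3 == 2) || j2 == j3)) && ((j1 != 0 || j3 != 0) || j2 == 0)) &&
    ((j2 != 0 || j3 != 0) || j1 == 0)) && ((j2 != 3 || j0 != 3) || j1 == 3)) &&
    ((j1 != 3 || j0 != 3) || j2 == 3)

def conc (j0 j1 j2 j3 d : Fin 4) : Bool :=
  ((((0 : Fin 4) == d || j0 == d) && ((1 : Fin 4) == d || j1 == d)) &&
    ((2 : Fin 4) == d || j2 == d)) && ((3 : Fin 4) == d || j3 == d)

theorem hyps_conc : ∀ j0 j1 j2 j3 : Fin 4, hyps j0 j1 j2 j3 = true →
    (((conc j0 j1 j2 j3 0 || conc j0 j1 j2 j3 1) || conc j0 j1 j2 j3 2) ||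
      conc j0 j1 j2 j3 3) = true := by
  decide

theorem conc_spec {j0 j1 j2 j3 d : Fin 4} (h : conc j0 j1 j2 j3 d = true) :
    (0 ≠ d → j0 = d) ∧ (1 ≠ d → j1 = d) ∧ (2 ≠ d → j2 = d) ∧ (3 ≠ d → j3 = d) := by
  simp only [conc, Bool.and_eq_true, Bool.or_eq_true, beq_iff_eq] at h
  exact ⟨fun k => h.1.1.1.resolve_left k, fun k => h.1.1.2.resolve_left k,
    fun k => h.1.2.resolve_left k, fun k => h.2.resolve_left k⟩

theorem or3 {p q r : Prop} (h : ¬ p → ¬ q → r) : (p ∨ q) ∨ r := by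
  by_cases hp : p
  · exact Or.inl (Or.inl hp)
  · by_cases hq : q
    · exact Or.inl (Or.inr hq)
    · exact Or.inr (h hp hq)

theorem or3' {p q r : Prop} (h : p → q → r) : (¬ p ∨ ¬ q) ∨ r := by
  by_cases hp : p
  · by_cases hq : q
    · exact Or.inr (h hp hq)
    · exact Or.inl (Or.inr hq)
  · exact Or.inl (Or.inl hp)

theorem std_aux (j0 j1 j2 j3 : Fin 4) (n0 : j0 ≠ 0) (n1 : j1 ≠ 1) (n2 : j2 ≠ 2) (n3 : j3 ≠ 3)
    (a01 : j0 ≠ 1 → j1 ≠ 0 → j0 = j1) (a02 : j0 ≠ 2 → j2 ≠ 0 → j0 = j2)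
    (a03 : j0 ≠ 3 → j3 ≠ 0 → j0 = j3)
    (a13 : j1 ≠ 3 → j3 ≠ 1 → j1 = j3) (a23 : j2 ≠ 3 → j3 ≠ 2 → j2 = j3)
    (g1 : j1 = 0 → j3 = 0 → j2 = 0) (g2 : j2 = 0 → j3 = 0 → j1 = 0)
    (g3 : j2 = 3 → j0 = 3 → j1 = 3) (g4 : j1 = 3 → j0 = 3 → j2 = 3) :
    ∃ d : Fin 4, (0 ≠ d → j0 = d) ∧ (1 ≠ d → j1 = d) ∧ (2 ≠ d → j2 = d) ∧ (3 ≠ d → j3 = d) := by
  have hh : hyps j0 j1 j2 j3 = true := by
    simp only [hyps, Bool.and_eq_true, Bool.or_eq_true, beq_iff_eq, bne_iff_ne]
    exact ⟨⟨⟨⟨⟨⟨⟨⟨⟨⟨⟨⟨n0, n1⟩, n2⟩, n3⟩, or3 a01⟩, or3 a02⟩, or3 a03⟩, or3 a13⟩, or3 a23⟩,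
      or3' g1⟩, or3' g2⟩, or3' g3⟩, or3' g4⟩
  have hc := hyps_conc j0 j1 j2 j3 hh
  simp only [Bool.or_eq_true] at hc
  rcases hc with ((hc | hc) | hc) | hc
  · exact ⟨0, conc_spec hc⟩
  · exact ⟨1, conc_spec hc⟩
  · exact ⟨2, conc_spec hc⟩
  · exact ⟨3, conc_spec hc⟩

theorem Lab.std (h : Lab t P I J B) {u : V} (hu : base P I u) :
    ∃ d : Fin 4, ∀ a, a ≠ d → J (cor t u a) = d := by
  obtain ⟨d, h0, h1, h2, h3⟩ := std_aux (J (cor t u 0)) (J (cor t u 1)) (J (cor t u 2))
    (J (cor t u 3)) (h.ncor hu 0) (h.ncor hu 1) (h.ncor hu 2) (h.ncor hu 3)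
    (h.pair hu (by decide) (by decide)) (h.pair hu (by decide) (by decide))
    (h.pair hu (by decide) (by decide)) (h.pair hu (by decide) (by decide))
    (h.pair hu (by decide) (by decide))
    (fun e1 e3 => h.geo hu (a := 1) (b := 3) (c := 2) (d := 0) (by decide) (by decide) (by decide)
      (by decide) (by decide) (by decide) e1 e3 (by decide) (by decide))
    (fun e1 e3 => h.geo hu (a := 2) (b := 3) (c := 1) (d := 0) (by decide) (by decide) (by decide)
      (by decide) (by decide) (by decide) e1 e3 (by decide) (by decide))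
    (fun e1 e3 => h.geo hu (a := 2) (b := 0) (c := 1) (d := 3) (by decide) (by decide) (by decide)
      (by decide) (by decide) (by decide) e1 e3 (by decide) (by decide))
    (fun e1 e3 => h.geo hu (a := 1) (b := 0) (c := 2) (d := 3) (by decide) (by decide) (by decide)
      (by decide) (by decide) (by decide) e1 e3 (by decide) (by decide))
  refine ⟨d, fun a => ?_⟩
  fin_cases a
  · exact h0
  · exact h1
  · exact h2
  · exact h3

end renorm

end Pool.Agent.Lib_helper75.Sparse
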