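import Pool.Agent.Lib_helper75.Sparse.Renorm

/-!
# Blocks of all levels
-/

namespace Pool.Agent.Lib_helper75.Sparse

variable {V : Type} [AddCommGroup V]

/-- The points of the block of level `n` at the origin. -/
def InS (t : Fin 4 → V) : ℕ → V → Prop
  | 0, s => s = 0
  | n + 1, s => ∃ a s', InS t n s' ∧ s = s' + (2 : ℤ) ^ n • t a

theorem InS_lsb (t : Fin 4 → V) : ∀ (n : ℕ) (s : V) (a : Fin 4), InS t n s →
    InS t (n + 1) (t a + (2 : ℤ) • s)
  | 0, s, a, h => ⟨a, 0, rfl, by rw [show s = 0 from h]; simp⟩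
  | n + 1, s, a, h => by
    obtain ⟨c, s', hs', rfl⟩ := h
    refine ⟨c, t a + (2 : ℤ) • s', InS_lsb t n s' a hs', ?_⟩
    rw [pow_succ', mul_smul]
    module

/-- The block structure of level `n`. -/
structure Blk (t : Fin 4 → V) (P : V → Prop) (n : ℕ) (Pn : V → Prop) (In Jn : V → Fin 4)
    (Bn : V → Bool) (β : V → V) : Prop where
  lab : Lab (fun a => (2 : ℤ) ^ n • t a) Pn In Jn Bn
  mem : ∀ p, P p → Pn (β p) ∧ InS t n (p - β p)
  full : ∀ u, Pn u → ∀ s, InS t n s → P (u + s) ∧ β (u + s) = u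
  adj : ∀ p a c, a ≠ c → P p → P (p + (t a - t c)) →
    β (p + (t a - t c)) = β p ∨ β (p + (t a - t c)) = β p + (2 : ℤ) ^ n • (t a - t c)

theorem exists_blk {t : Fin 4 → V} {P : V → Prop} {I J : V → Fin 4} {B : V → Bool}
    (h : Lab t P I J B) (t0 : t 0 = 0) : ∀ n : ℕ, ∃ Pn In Jn Bn β, Blk t P n Pn In Jn Bn β
  | 0 => ⟨P, I, J, B, id, {
      lab := by simpa using h
      mem := fun p hp => ⟨hp, by simp [InS]⟩
      full := fun u hu s hs => by
        have : s = 0 := hs
        subst this; simpa using hu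
      adj := fun p a c _ _ _ => Or.inr (by simp) }⟩
  | n + 1 => by
    obtain ⟨Pn, In, Jn, Bn, β, hb⟩ := exists_blk h t0 n
    have hl := hb.lab
    have sm : ∀ a c : Fin 4, (2 : ℤ) ^ n • t a - (2 : ℤ) ^ n • t c = (2 : ℤ) ^ n • (t a - t c) := by
      intro a c; module
    refine ⟨base Pn In, dig (fun a => (2 : ℤ) ^ n • t a) Jn, conN (fun a => (2 : ℤ) ^ n • t a) Jn,
      bitN (fun a => (2 : ℤ) ^ n • t a) Jn Bn,
      fun p => β p + ((2 : ℤ) ^ n • t 0 - (2 : ℤ) ^ n • t (In (β p))), ?_, ?_, ?_, ?_⟩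
    · have h1 := hl.renorm
      have e : (fun a => (2 : ℤ) • ((2 : ℤ) ^ n • t a)) = fun a => (2 : ℤ) ^ (n + 1) • t a := by
        funext a
        rw [smul_smul, ← pow_succ']
      rw [← e]
      exact h1
    · intro p hp
      obtain ⟨h1, h2⟩ := hb.mem p hp
      refine ⟨hl.base_of h1 rfl, In (β p), p - β p, h2, ?_⟩
      rw [t0]; module
    · intro u hu s hs
      obtain ⟨a, s', hs', rfl⟩ := hs
      have hc : Pn (u + ((2 : ℤ) ^ n • t a - (2 : ℤ) ^ n • t 0)) := hl.pcor hu a
      have hi : In (u + ((2 : ℤ) ^ n • t a - (2 : ℤ) ^ n • t 0)) = a := hl.icor hu a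
      have e : u + (s' + (2 : ℤ) ^ n • t a) =
          u + ((2 : ℤ) ^ n • t a - (2 : ℤ) ^ n • t 0) + s' := by
        rw [t0]; module
      obtain ⟨k1, k2⟩ := hb.full _ hc s' hs'
      rw [e]
      refine ⟨k1, ?_⟩
      simp only [k2, hi]
      module
    · intro p a c hac hp hp'
      rcases hb.adj p a c hac hp hp' with he | he
      · left; rw [he]
      · have h1 := (hb.mem p hp).1
        have h2 := (hb.mem _ hp').1
        rw [he] at h2 ⊢
        have ec : β p + (2 : ℤ) ^ n • (t a - t c) =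
            β p + ((2 : ℤ) ^ n • t a - (2 : ℤ) ^ n • t c) := by module
        rw [ec] at h2 ⊢
        rcases (hl.ty _ h1 a c hac).1 h2 with h3 | ⟨h3, h4⟩
        · left
          have h5 := hl.sib _ h1 a
          simp only [← h3] at h5
          rw [h5, ← h3]
          module
        · right
          have h5 := hl.conI _ h1
          simp only [← h3, ← h4] at h5
          rw [h5, ← h3, pow_succ', mul_smul]
          module

end Pool.Agent.Lib_helper75.Sparse
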