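import Pool.Agent.Lib_helper75.Sparse.Sep

/-!
# The number of centres in a column
-/

namespace Pool.Agent.Lib_helper75.Sparse

theorem div_lem {N a b : ℤ} (hN : 0 < N) (h : a / N = b / N) : -N < b - a ∧ b - a < N := by
  have h1 := Int.emod_add_mul_ediv a N
  have h2 := Int.emod_add_mul_ediv b N
  have h3 := Int.emod_nonneg a hN.ne'
  have h4 := Int.emod_nonneg b hN.ne'
  have h5 := Int.emod_lt_of_pos a hN
  have h6 := Int.emod_lt_of_pos b hN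
  rw [h] at h1
  constructor <;> linarith

theorem column {P : ℤ × ℤ × ℤ → Prop} {I J : ℤ × ℤ × ℤ → Fin 4} {B : ℤ × ℤ × ℤ → Bool}
    (hl : Lab tv P I J B) (h5 : ∀ p, P p → ¬ P (p + (0, 0, 1)))
    (h6 : ∀ p, P p → ¬ P (p + (0, 1, 0))) (X Y : ℤ) : {z : ℤ | P (X, Y, z)}.encard ≤ 12 := by
  by_contra hcon
  have hlt : (12 : ℕ∞) < {z : ℤ | P (X, Y, z)}.encard := not_le.1 hcon
  have h13 : (13 : ℕ∞) ≤ {z : ℤ | P (X, Y, z)}.encard := by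
    have := Order.add_one_le_of_lt hlt
    have e : (12 : ℕ∞) + 1 = 13 := by norm_num
    rwa [e] at this
  obtain ⟨T, hT, hTc⟩ := Set.exists_subset_encard_eq h13
  have hTf : T.Finite := Set.finite_of_encard_eq_coe (k := 13) hTc
  obtain ⟨F, rfl⟩ := hTf.exists_finset_coe
  have hF : F.card = 13 := by
    rw [Set.encard_coe_eq_coe_finsetCard] at hTc
    exact_mod_cast hTc
  -- bound
  obtain ⟨M, hM⟩ : ∃ M : ℕ, ∀ z ∈ F, |z| ≤ M := by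
    refine ⟨F.sup Int.natAbs, fun z hz => ?_⟩
    have := Finset.le_sup (f := Int.natAbs) hz
    rw [Int.abs_eq_natAbs]
    exact_mod_cast this
  obtain ⟨m, hm⟩ : ∃ m : ℕ, 2 * (M : ℤ) ≤ 2 ^ m := by
    refine ⟨2 * M, ?_⟩
    have : 2 * M < 2 ^ (2 * M) := Nat.lt_two_pow_self
    exact_mod_cast this.le
  obtain ⟨Pn, In, Jn, Bn, β, hb⟩ := exists_blk hl (t0 := rfl) (m + 1)
  have hN : (0 : ℤ) < 2 ^ m := by positivity
  have p2 : (2 : ℤ) ^ (m + 1) = 2 * 2 ^ m := by ring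
  let u : ℤ → ℤ × ℤ × ℤ := fun z => β (X, Y, z)
  let g : ℤ → ℤ × ℤ × ℤ := fun z =>
    ((ox (u z) - (-(M : ℤ) - X - 2 * 2 ^ m + 1)) / 2 ^ m,
      (oy (u z) - (X - 2 * 2 ^ m + 1)) / 2 ^ m, (oz (u z) - (Y - 2 * 2 ^ m + 1)) / 2 ^ m)
  have hrange : ∀ z ∈ F,
      (0 ≤ ox (u z) - (-(M : ℤ) - X - 2 * 2 ^ m + 1) ∧
        ox (u z) - (-(M : ℤ) - X - 2 * 2 ^ m + 1) < 3 * 2 ^ m) ∧
      (0 ≤ oy (u z) - (X - 2 * 2 ^ m + 1) ∧ oy (u z) - (X - 2 * 2 ^ m + 1) < 2 * 2 ^ m) ∧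
      (0 ≤ oz (u z) - (Y - 2 * 2 ^ m + 1) ∧ oz (u z) - (Y - 2 * 2 ^ m + 1) < 2 * 2 ^ m) := by
    intro z hz
    have hz' := hM z hz
    rw [abs_le] at hz'
    obtain ⟨_, hs⟩ := hb.mem (X, Y, z) (hT hz)
    obtain ⟨k1, k2, k3⟩ := InS_range _ _ hs
    have e1 : ox ((X, Y, z) : ℤ × ℤ × ℤ) = z - X := rfl
    have e2 : oy ((X, Y, z) : ℤ × ℤ × ℤ) = X := rfl
    have e3 : oz ((X, Y, z) : ℤ × ℤ × ℤ) = Y := rfl
    rw [ox_sub, e1, p2] at k1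
    rw [oy_sub, e2, p2] at k2
    rw [oz_sub, e3, p2] at k3
    change (0 ≤ z - X - ox (u z) ∧ z - X - ox (u z) < 2 * 2 ^ m) at k1
    change (0 ≤ X - oy (u z) ∧ X - oy (u z) < 2 * 2 ^ m) at k2
    change (0 ≤ Y - oz (u z) ∧ Y - oz (u z) < 2 * 2 ^ m) at k3
    refine ⟨⟨?_, ?_⟩, ⟨?_, ?_⟩, ⟨?_, ?_⟩⟩ <;> linarith [k1.1, k1.2, k2.1, k2.2, k3.1, k3.2, hz'.1,
      hz'.2, Int.add_one_le_iff.2 k1.2, Int.add_one_le_iff.2 k2.2, Int.add_one_le_iff.2 k3.2]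
  have hmaps : ∀ z ∈ F, g z ∈ (Finset.Ico (0 : ℤ) 3) ×ˢ ((Finset.Ico (0 : ℤ) 2) ×ˢ
      (Finset.Ico (0 : ℤ) 2)) := by
    intro z hz
    obtain ⟨k1, k2, k3⟩ := hrange z hz
    simp only [Finset.mem_product, Finset.mem_Ico, g]
    refine ⟨⟨Int.ediv_nonneg k1.1 hN.le, Int.ediv_lt_of_lt_mul hN k1.2⟩,
      ⟨Int.ediv_nonneg k2.1 hN.le, Int.ediv_lt_of_lt_mul hN k2.2⟩,
      ⟨Int.ediv_nonneg k3.1 hN.le, Int.ediv_lt_of_lt_mul hN k3.2⟩⟩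
  have hinj : Set.InjOn g (F : Set ℤ) := by
    intro z hz z' hz' hg
    simp only [g, Prod.mk.injEq] at hg
    obtain ⟨g1, g2, g3⟩ := hg
    have d1 := div_lem hN g1
    have d2 := div_lem hN g2
    have d3 := div_lem hN g3
    obtain ⟨q1, hs⟩ := hb.mem (X, Y, z) (hT hz)
    obtain ⟨q1', hs'⟩ := hb.mem (X, Y, z') (hT hz')
    have huu : β (X, Y, z) = β (X, Y, z') := by
      apply sep h5 h6 hb q1 q1'
      · rw [ox_sub]; constructor <;> linarith [d1.1, d1.2]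
      · rw [oy_sub]; constructor <;> linarith [d2.1, d2.2]
      · rw [oz_sub]; constructor <;> linarith [d3.1, d3.2]
    rw [← huu] at hs'
    have := InS_inj _ _ _ hs hs' (by rw [oy_sub, oy_sub]; rfl) (by rw [oz_sub, oz_sub]; rfl)
    have h2 := congrArg (fun v : ℤ × ℤ × ℤ => v.2.2) this
    simpa using h2
  have hcard := Finset.card_le_card_of_injOn g hmaps hinj
  rw [hF] at hcard
  simp at hcard

end Pool.Agent.Lib_helper75.Sparse
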