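import Mathlib

/-!
# Three-dimensional subshifts of finite type, traces and horizontal expansiveness
-/

namespace Pool.Agent.Lib_helper75.Sparse

/-- A configuration `x ∈ {0,1}^{ℤ³}`; `false` is the zero symbol, `true` is the symbol `1`. -/
abbrev Config : Type := ℤ × ℤ × ℤ → Bool

/-- A finite pattern is a pair `(D, A)` of finite sets: its domain `D` and the set `A` of cells that
carry the symbol `1` (the other cells of `D` carry `0`).  It occurs in `x` at the position `u`. -/
def Occurs (Q : Finset (ℤ × ℤ × ℤ) × Finset (ℤ × ℤ × ℤ)) (x : Config) (u : ℤ × ℤ × ℤ) : Prop :=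
  ∀ w ∈ Q.1, (x (u + w) = true ↔ w ∈ Q.2)

/-- `X` is a subshift of finite type: the set of all configurations in which none of finitely many
finite patterns occurs at any position. -/
def IsSFT (X : Set Config) : Prop :=
  ∃ F : Finset (Finset (ℤ × ℤ × ℤ) × Finset (ℤ × ℤ × ℤ)),
    X = {x | ∀ u, ∀ Q ∈ F, ¬ Occurs Q x u}

/-- The trace: the set of vertical columns through the origin of the points of `X`. -/
def trace (X : Set Config) : Set (ℤ → Bool) := {y | ∃ x ∈ X, y = fun n => x (0, 0, n)}

/-- A set of bi-infinite words is sparse if for some `k` every word in it has at most `k`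
symbols `1`. -/
def IsSparse (T : Set (ℤ → Bool)) : Prop := ∃ k : ℕ, ∀ y ∈ T, {n : ℤ | y n = true}.encard ≤ k

/-- The action of the horizontal subgroup `ℤ² × {0}` is expansive: for some `h` every point of `X`
is determined by its restriction to the slab `ℤ² × {-h, …, h}`. -/
def HorizontallyExpansive (X : Set Config) : Prop :=
  ∃ h : ℕ, ∀ x ∈ X, ∀ y ∈ X, (∀ a b c : ℤ, |c| ≤ h → x (a, b, c) = y (a, b, c)) → x = y

end Pool.Agent.Lib_helper75.Sparse
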