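import Pool.Agent.Lib_helper75.Sparse.Abs

/-!
# Determinism of labelled structures
-/

namespace Pool.Agent.Lib_helper75.Sparse

/-- Two labelled structures agree at a point. -/
def Ag {V : Type} (P1 : V → Prop) (I1 J1 : V → Fin 4) (B1 : V → Bool) (P2 : V → Prop)
    (I2 J2 : V → Fin 4) (B2 : V → Bool) (p : V) : Prop :=
  (P1 p ↔ P2 p) ∧ (P1 p → I2 p = I1 p ∧ J2 p = J1 p ∧ B2 p = B1 p)

variable {V : Type} [AddCommGroup V] {t : Fin 4 → V} {P1 P2 : V → Prop} {I1 J1 I2 J2 : V → Fin 4}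
  {B1 B2 : V → Bool}

theorem Ag.symm {p : V} (h : Ag P1 I1 J1 B1 P2 I2 J2 B2 p) : Ag P2 I2 J2 B2 P1 I1 J1 B1 p := by
  refine ⟨h.1.symm, fun h2 => ?_⟩
  obtain ⟨a, b, c⟩ := h.2 (h.1.2 h2)
  exact ⟨a.symm, b.symm, c.symm⟩

theorem con_ag (L1 : Lab t P1 I1 J1 B1) (L2 : Lab t P2 I2 J2 B2) {p : V} (hp : P1 p)
    (h : Ag P1 I1 J1 B1 P2 I2 J2 B2 (p + (t (I1 p) - t (J1 p)))) :
    P2 p ∧ I2 p = I1 p ∧ J2 p = J1 p ∧ B2 p = B1 p := by
  have q1 := L1.pcon hp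
  have q2 := L1.conI p hp
  have q3 := L1.conJ p hp
  have q4 := L1.conB p hp
  obtain ⟨a, b, c⟩ := h.2 q1
  have q5 := h.1.1 q1
  rw [q2] at a
  rw [q3] at b
  rw [q4] at c
  have r1 := L2.pcon q5
  have r2 := L2.conI _ q5
  have r3 := L2.conJ _ q5
  have r4 := L2.conB _ q5
  rw [a, b] at r1 r2 r3 r4
  have e : p + (t (I1 p) - t (J1 p)) + (t (J1 p) - t (I1 p)) = p := by abel
  rw [e] at r1 r2 r3 r4
  exact ⟨r1, r2, r3, r4.trans c⟩

theorem sib_ag (L1 : Lab t P1 I1 J1 B1) (L2 : Lab t P2 I2 J2 B2) {p : V} (hp : P1 p) (a : Fin 4)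
    (h : Ag P1 I1 J1 B1 P2 I2 J2 B2 (p + (t a - t (I1 p)))) : P2 p ∧ I2 p = I1 p := by
  have q1 := L1.psib hp a
  have q2 := L1.sib p hp a
  obtain ⟨b, _, _⟩ := h.2 q1
  have q5 := h.1.1 q1
  rw [q2] at b
  have r1 := L2.psib q5 (I1 p)
  have r2 := L2.sib _ q5 (I1 p)
  rw [b] at r1 r2
  have e : p + (t a - t (I1 p)) + (t (I1 p) - t a) = p := by abel
  rw [e] at r1 r2
  exact ⟨r1, r2⟩

theorem line_ag (L1 : Lab t P1 I1 J1 B1) (L2 : Lab t P2 I2 J2 B2) {p : V} (hp : P1 p) {a : Fin 4}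
    (ha : a ≠ I1 p) (hg : good a (I1 p))
    (h : Ag P1 I1 J1 B1 P2 I2 J2 B2 (p + (t a - t (I1 p)))) :
    lam (I1 p) (J1 p) (B1 p) (I1 p) a = lam (I1 p) (J2 p) (B2 p) (I1 p) a := by
  obtain ⟨k1, k2⟩ := sib_ag L1 L2 hp a h
  have q1 := L1.psib hp a
  obtain ⟨_, b2, b3⟩ := h.2 q1
  have l1 := L1.line p hp a ha hg
  have l2 := L2.line p k1 a (by rw [k2]; exact ha) (by rw [k2]; exact hg)
  rw [k2] at l2
  rw [l1, l2, b2, b3]

theorem hi_dec : ∀ (hi j j' : Fin 4) (b b' : Bool), (hi = 3 ∨ hi = 0) → j ≠ hi → j' ≠ hi →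
    (∀ a, a ≠ hi → lam hi j b hi a = lam hi j' b' hi a) → j' = j ∧ b' = b := by
  decide

theorem good_hi : ∀ hi a : Fin 4, (hi = 3 ∨ hi = 0) → good a hi := by decide

/-- The two middle digits. -/
theorem mid_cases : ∀ lo hi m : Fin 4, ((lo = 0 ∧ hi = 3) ∨ (lo = 3 ∧ hi = 0)) → m = lo ∨ m = hi ∨
    m = 1 ∨ m = 2 := by decide

theorem half (η : V →+ ℤ) {lo hi : Fin 4} (hlh : (lo = 0 ∧ hi = 3) ∨ (lo = 3 ∧ hi = 0))
    (e1 : η (t 1 - t lo) = 1) (e2 : η (t 2 - t lo) = 1) (e3 : η (t hi - t lo) = 2)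
    (L1 : Lab t P1 I1 J1 B1) (L2 : Lab t P2 I2 J2 B2)
    (c1 : ∀ p, P1 p → ¬ good (I1 p) (J1 p) → B1 p = false)
    (c2 : ∀ p, P2 p → ¬ good (I2 p) (J2 p) → B2 p = false)
    (r : ℤ) (hag : ∀ p, (η p = r - 1 ∨ η p = r - 2) → Ag P1 I1 J1 B1 P2 I2 J2 B2 p)
    {p : V} (hr : η p = r) (hp : P1 p) (hm : I1 p = 1 ∨ I1 p = 2) (hj : J1 p ≠ lo) :
    P2 p ∧ I2 p = I1 p ∧ J2 p = J1 p ∧ B2 p = B1 p := by
  have hne := L1.ne p hp
  -- the lower sibling
  have hη : ∀ m : Fin 4, (m = 1 ∨ m = 2) → η (t m) = η (t lo) + 1 := by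
    rintro m (rfl | rfl)
    · rw [map_sub] at e1; linarith
    · rw [map_sub] at e2; linarith
  have hhi : η (t hi) = η (t lo) + 2 := by rw [map_sub] at e3; linarith
  rcases mid_cases lo hi (J1 p) hlh with h | h | h
  · exact absurd h hj
  · -- contact below
    apply con_ag L1 L2 hp
    apply hag
    left
    rw [map_add, map_sub, h, hη _ hm, hhi, hr]; ring
  · -- horizontal contact
    have hmm : (I1 p = 1 ∧ J1 p = 2) ∨ (I1 p = 2 ∧ J1 p = 1) := by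
      rcases hm with hm | hm <;> rcases h with h | h
      · exact absurd (h.trans hm.symm) hne
      · exact Or.inl ⟨hm, h⟩
      · exact Or.inr ⟨hm, h⟩
      · exact absurd (h.trans hm.symm) hne
    obtain ⟨k1, k2⟩ := sib_ag L1 L2 hp lo (hag _ (by
      left; rw [map_add, map_sub, hη _ hm, hr]; ring))
    -- the contact point
    have q1 := L1.pcon hp
    have q2 := L1.conI p hp
    have k3 := (sib_ag L1 L2 q1 lo (hag _ (by
      left
      rw [map_add, map_add, map_sub, map_sub, q2, hη _ hm, hη _ h, hr]; ring))).1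
    have k4 := (L2.ty p k1 (I1 p) (J1 p) (fun e => hne e.symm)).1 k3
    rw [k2] at k4
    have k5 : J2 p = J1 p := by
      rcases k4 with k4 | k4
      · exact absurd k4 hne
      · exact k4.2.symm
    have n1 : ¬ good (I1 p) (J1 p) := by
      rcases hmm with ⟨h1, h2⟩ | ⟨h1, h2⟩ <;> rw [h1, h2] <;> decide
    exact ⟨k1, k2, k5, by rw [c1 p hp n1, c2 p k1 (by rw [k2, k5]; exact n1)]⟩

theorem full (η : V →+ ℤ) {lo hi : Fin 4} (hlh : (lo = 0 ∧ hi = 3) ∨ (lo = 3 ∧ hi = 0))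
    (e1 : η (t 1 - t lo) = 1) (e2 : η (t 2 - t lo) = 1) (e3 : η (t hi - t lo) = 2)
    (L1 : Lab t P1 I1 J1 B1) (L2 : Lab t P2 I2 J2 B2)
    (c1 : ∀ p, P1 p → ¬ good (I1 p) (J1 p) → B1 p = false)
    (c2 : ∀ p, P2 p → ¬ good (I2 p) (J2 p) → B2 p = false)
    (r : ℤ) (hag : ∀ p, (η p = r - 1 ∨ η p = r - 2) → Ag P1 I1 J1 B1 P2 I2 J2 B2 p)
    {p : V} (hr : η p = r) (hp : P1 p) :
    P2 p ∧ I2 p = I1 p ∧ J2 p = J1 p ∧ B2 p = B1 p := by
  have hne := L1.ne p hp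
  have hη : ∀ m : Fin 4, (m = 1 ∨ m = 2) → η (t m) = η (t lo) + 1 := by
    rintro m (rfl | rfl)
    · rw [map_sub] at e1; linarith
    · rw [map_sub] at e2; linarith
  have hhi : η (t hi) = η (t lo) + 2 := by rw [map_sub] at e3; linarith
  rcases mid_cases lo hi (I1 p) hlh with h | h | h
  · -- lowest type
    apply con_ag L1 L2 hp
    apply hag
    rw [map_add, map_sub, h, hr]
    rcases mid_cases lo hi (J1 p) hlh with h' | h' | h'
    · exact absurd (h'.trans h.symm) hne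
    · right; rw [h', hhi]; ring
    · left; rw [hη _ h']; ring
  · -- highest type
    have hs : ∀ a, a ≠ hi → Ag P1 I1 J1 B1 P2 I2 J2 B2 (p + (t a - t (I1 p))) := by
      intro a ha
      apply hag
      rw [map_add, map_sub, h, hr, hhi]
      rcases mid_cases lo hi a hlh with h' | h' | h'
      · right; rw [h']; ring
      · exact absurd h' ha
      · left; rw [hη _ h']; ring
    have hlo : lo ≠ hi := by rcases hlh with ⟨rfl, rfl⟩ | ⟨rfl, rfl⟩ <;> decide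
    have h03 : hi = 3 ∨ hi = 0 := by rcases hlh with ⟨_, h⟩ | ⟨_, h⟩ <;> [left; right] <;> exact h
    obtain ⟨k1, k2⟩ := sib_ag L1 L2 hp lo (hs lo hlo)
    have hne2 := L2.ne p k1
    rw [k2, h] at hne2
    rw [h] at hne
    obtain ⟨k3, k4⟩ := hi_dec hi (J1 p) (J2 p) (B1 p) (B2 p) h03 hne hne2 (by
      intro a ha
      have := line_ag L1 L2 hp (a := a) (by rw [h]; exact ha) (by rw [h]; exact good_hi hi a h03)
        (hs a ha)
      rwa [h] at this)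
    exact ⟨k1, k2, k3, k4⟩
  · by_cases hj : J1 p = lo
    · have hsl : Ag P1 I1 J1 B1 P2 I2 J2 B2 (p + (t lo - t (I1 p))) := hag _ (by
        left; rw [map_add, map_sub, hη _ h, hr]; ring)
      obtain ⟨k1, k2⟩ := sib_ag L1 L2 hp lo hsl
      have k3 : J2 p = lo := by
        by_contra hne'
        have := (half η hlh e1 e2 e3 L2 L1 c2 c1 r (fun p hp => (hag p hp).symm) hr k1
          (by rw [k2]; exact h) hne').2.2.1
        exact hne' (this.symm.trans hj)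
      have hgd : good lo (I1 p) := by
        rcases hlh with ⟨rfl, _⟩ | ⟨rfl, _⟩ <;> rcases h with h | h <;> rw [h] <;> decide
      have hln := line_ag L1 L2 hp (a := lo) (by
        rw [← hj]; exact hne) hgd hsl
      rw [k3, hj, lam_of_eq, lam_of_eq] at hln
      have := thd_inj (by rw [← hj]; exact hne.symm) hln
      exact ⟨k1, k2, k3.trans hj.symm, this.symm⟩
    · exact half η hlh e1 e2 e3 L1 L2 c1 c2 r hag hr hp h hj

theorem next_row (η : V →+ ℤ) {lo hi : Fin 4} (hlh : (lo = 0 ∧ hi = 3) ∨ (lo = 3 ∧ hi = 0))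
    (e1 : η (t 1 - t lo) = 1) (e2 : η (t 2 - t lo) = 1) (e3 : η (t hi - t lo) = 2)
    (L1 : Lab t P1 I1 J1 B1) (L2 : Lab t P2 I2 J2 B2)
    (c1 : ∀ p, P1 p → ¬ good (I1 p) (J1 p) → B1 p = false)
    (c2 : ∀ p, P2 p → ¬ good (I2 p) (J2 p) → B2 p = false)
    (r : ℤ) (hag : ∀ p, (η p = r - 1 ∨ η p = r - 2) → Ag P1 I1 J1 B1 P2 I2 J2 B2 p)
    {p : V} (hr : η p = r) : Ag P1 I1 J1 B1 P2 I2 J2 B2 p := by
  refine ⟨⟨fun h => (full η hlh e1 e2 e3 L1 L2 c1 c2 r hag hr h).1, fun h =>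
    (full η hlh e1 e2 e3 L2 L1 c2 c1 r (fun p hp => (hag p hp).symm) hr h).1⟩, fun h =>
    (full η hlh e1 e2 e3 L1 L2 c1 c2 r hag hr h).2⟩

end Pool.Agent.Lib_helper75.Sparse
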