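import Pool.Agent.Lib_helper75.Sparse.Blocks

/-!
# The four vectors and signed digits
-/

namespace Pool.Agent.Lib_helper75.Sparse

/-- The four vectors. -/
def tv : Fin 4 → ℤ × ℤ × ℤ := ![(0, 0, 0), (0, 1, 1), (1, 1, 1), (1, 0, 2)]

theorem tv0 : tv 0 = (0, 0, 0) := rfl
theorem tv1 : tv 1 = (0, 1, 1) := rfl
theorem tv2 : tv 2 = (1, 1, 1) := rfl
theorem tv3 : tv 3 = (1, 0, 2) := rfl

/-- First coordinate in the symmetric coordinates. -/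
def ox (w : ℤ × ℤ × ℤ) : ℤ := w.2.2 - w.1
/-- Second coordinate in the symmetric coordinates. -/
def oy (w : ℤ × ℤ × ℤ) : ℤ := w.1
/-- Third coordinate in the symmetric coordinates. -/
def oz (w : ℤ × ℤ × ℤ) : ℤ := w.2.1

theorem step (x y z : ℤ) (h : (x + y + z) % 2 = 0)
    (hn : ¬ (x % 2 = 0 ∧ y % 2 = 0 ∧ z % 2 = 0)) :
    ∃ a c : Fin 4, ∃ x' y' z' : ℤ, x = (ox (tv a) - ox (tv c)) + 2 * x' ∧
      y = (oy (tv a) - oy (tv c)) + 2 * y' ∧ z = (oz (tv a) - oz (tv c)) + 2 * z' ∧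
      (x' + y' + z') % 2 = 0 ∧ ¬ (x' % 2 = 0 ∧ y' % 2 = 0 ∧ z' % 2 = 0) := by
  have hx : x % 4 = 0 ∨ x % 4 = 1 ∨ x % 4 = 2 ∨ x % 4 = 3 := by omega
  have hy : y % 4 = 0 ∨ y % 4 = 1 ∨ y % 4 = 2 ∨ y % 4 = 3 := by omega
  have hs : (x + y + z) % 4 = 0 ∨ (x + y + z) % 4 = 2 := by omega
  by_cases hx2 : x % 2 = 0
  · -- y, z odd
    have hy2 : y % 2 = 1 := by omega
    have hz2 : z % 2 = 1 := by omega
    by_cases hy4 : y % 4 = 3
    · rcases hs with hs | hs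
      · refine ⟨3, 1, x / 2, (y - 1) / 2, (z + 1) / 2, ?_⟩
        simp only [tv1, tv3, ox, oy, oz]; omega
      · refine ⟨2, 0, x / 2, (y - 1) / 2, (z - 1) / 2, ?_⟩
        simp only [tv0, tv2, ox, oy, oz]; omega
    · rcases hs with hs | hs
      · refine ⟨1, 3, x / 2, (y + 1) / 2, (z - 1) / 2, ?_⟩
        simp only [tv1, tv3, ox, oy, oz]; omega
      · refine ⟨0, 2, x / 2, (y + 1) / 2, (z + 1) / 2, ?_⟩
        simp only [tv0, tv2, ox, oy, oz]; omega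
  · by_cases hy2 : y % 2 = 0
    · -- x, z odd
      by_cases hx4 : x % 4 = 3
      · rcases hs with hs | hs
        · refine ⟨3, 2, (x - 1) / 2, y / 2, (z + 1) / 2, ?_⟩
          simp only [tv2, tv3, ox, oy, oz]; omega
        · refine ⟨1, 0, (x - 1) / 2, y / 2, (z - 1) / 2, ?_⟩
          simp only [tv0, tv1, ox, oy, oz]; omega
      · rcases hs with hs | hs
        · refine ⟨2, 3, (x + 1) / 2, y / 2, (z - 1) / 2, ?_⟩
          simp only [tv2, tv3, ox, oy, oz]; omega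
        · refine ⟨0, 1, (x + 1) / 2, y / 2, (z + 1) / 2, ?_⟩
          simp only [tv0, tv1, ox, oy, oz]; omega
    · by_cases hx4 : x % 4 = 3
      · rcases hs with hs | hs
        · refine ⟨1, 2, (x - 1) / 2, (y + 1) / 2, z / 2, ?_⟩
          simp only [tv2, tv1, ox, oy, oz]; omega
        · refine ⟨3, 0, (x - 1) / 2, (y - 1) / 2, z / 2, ?_⟩
          simp only [tv0, tv3, ox, oy, oz]; omega
      · rcases hs with hs | hs
        · refine ⟨2, 1, (x + 1) / 2, (y - 1) / 2, z / 2, ?_⟩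
          simp only [tv2, tv1, ox, oy, oz]; omega
        · refine ⟨0, 3, (x + 1) / 2, (y + 1) / 2, z / 2, ?_⟩
          simp only [tv0, tv3, ox, oy, oz]; omega

theorem o_bound (a c : Fin 4) : (-1 ≤ ox (tv a) - ox (tv c) ∧ ox (tv a) - ox (tv c) ≤ 1) ∧
    (-1 ≤ oy (tv a) - oy (tv c) ∧ oy (tv a) - oy (tv c) ≤ 1) ∧
    (-1 ≤ oz (tv a) - oz (tv c) ∧ oz (tv a) - oz (tv c) ≤ 1) := by
  fin_cases a <;> fin_cases c <;> simp [tv, ox, oy, oz]

theorem base_case (x y z : ℤ) (hx : -1 ≤ x ∧ x ≤ 1) (hy : -1 ≤ y ∧ y ≤ 1) (hz : -1 ≤ z ∧ z ≤ 1)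
    (h : (x + y + z) % 2 = 0) (hn : ¬ (x % 2 = 0 ∧ y % 2 = 0 ∧ z % 2 = 0)) :
    ∃ a c : Fin 4, x = ox (tv a) - ox (tv c) ∧ y = oy (tv a) - oy (tv c) ∧
      z = oz (tv a) - oz (tv c) := by
  have hx' : x = -1 ∨ x = 0 ∨ x = 1 := by omega
  have hy' : y = -1 ∨ y = 0 ∨ y = 1 := by omega
  have hz' : z = -1 ∨ z = 0 ∨ z = 1 := by omega
  rcases hx' with rfl | rfl | rfl <;> rcases hy' with rfl | rfl | rfl <;>
    rcases hz' with rfl | rfl | rfl <;> first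
    | (exfalso; omega)
    | (refine ⟨0, 1, ?_⟩; decide)
    | (refine ⟨0, 2, ?_⟩; decide)
    | (refine ⟨0, 3, ?_⟩; decide)
    | (refine ⟨1, 0, ?_⟩; decide)
    | (refine ⟨1, 2, ?_⟩; decide)
    | (refine ⟨1, 3, ?_⟩; decide)
    | (refine ⟨2, 0, ?_⟩; decide)
    | (refine ⟨2, 1, ?_⟩; decide)
    | (refine ⟨2, 3, ?_⟩; decide)
    | (refine ⟨3, 0, ?_⟩; decide)
    | (refine ⟨3, 1, ?_⟩; decide)
    | (refine ⟨3, 2, ?_⟩; decide)

theorem ext_o {v w : ℤ × ℤ × ℤ} (h1 : ox v = ox w) (h2 : oy v = oy w) (h3 : oz v = oz w) :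
    v = w := by
  obtain ⟨a, b, c⟩ := v
  obtain ⟨a', b', c'⟩ := w
  simp only [ox, oy, oz] at h1 h2 h3
  subst h2 h3
  have : c = c' := by omega
  rw [this]

theorem ox_add (v w : ℤ × ℤ × ℤ) : ox (v + w) = ox v + ox w := by
  simp only [ox, Prod.fst_add, Prod.snd_add]; ring
theorem oy_add (v w : ℤ × ℤ × ℤ) : oy (v + w) = oy v + oy w := by
  simp only [oy, Prod.fst_add]
theorem oz_add (v w : ℤ × ℤ × ℤ) : oz (v + w) = oz v + oz w := by
  simp only [oz, Prod.fst_add, Prod.snd_add]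
theorem ox_sub (v w : ℤ × ℤ × ℤ) : ox (v - w) = ox v - ox w := by
  simp only [ox, Prod.fst_sub, Prod.snd_sub]; ring
theorem oy_sub (v w : ℤ × ℤ × ℤ) : oy (v - w) = oy v - oy w := by
  simp only [oy, Prod.fst_sub]
theorem oz_sub (v w : ℤ × ℤ × ℤ) : oz (v - w) = oz v - oz w := by
  simp only [oz, Prod.fst_sub, Prod.snd_sub]
theorem ox_smul (k : ℤ) (w : ℤ × ℤ × ℤ) : ox (k • w) = k * ox w := by
  simp only [ox, Prod.smul_fst, Prod.smul_snd, smul_eq_mul]; ring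
theorem oy_smul (k : ℤ) (w : ℤ × ℤ × ℤ) : oy (k • w) = k * oy w := by
  simp only [oy, Prod.smul_fst, smul_eq_mul]
theorem oz_smul (k : ℤ) (w : ℤ × ℤ × ℤ) : oz (k • w) = k * oz w := by
  simp only [oz, Prod.smul_fst, Prod.smul_snd, smul_eq_mul]

theorem digits : ∀ (m : ℕ) (w : ℤ × ℤ × ℤ), (-(2 ^ m) ≤ ox w ∧ ox w ≤ 2 ^ m) →
    (-(2 ^ m) ≤ oy w ∧ oy w ≤ 2 ^ m) → (-(2 ^ m) ≤ oz w ∧ oz w ≤ 2 ^ m) →
    (ox w + oy w + oz w) % 2 = 0 → ¬ (ox w % 2 = 0 ∧ oy w % 2 = 0 ∧ oz w % 2 = 0) →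
    ∃ s s', InS tv (m + 1) s ∧ InS tv (m + 1) s' ∧ w = s - s'
  | 0, w, h1, h2, h3, h4, h5 => by
    obtain ⟨a, c, e1, e2, e3⟩ := base_case (ox w) (oy w) (oz w) (by simpa using h1)
      (by simpa using h2) (by simpa using h3) h4 h5
    refine ⟨tv a + (2 : ℤ) • 0, tv c + (2 : ℤ) • 0, InS_lsb tv 0 0 a rfl, InS_lsb tv 0 0 c rfl, ?_⟩
    apply ext_o
    · rw [e1, ox_sub, smul_zero, add_zero, add_zero]
    · rw [e2, oy_sub, smul_zero, add_zero, add_zero]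
    · rw [e3, oz_sub, smul_zero, add_zero, add_zero]
  | m + 1, w, h1, h2, h3, h4, h5 => by
    obtain ⟨a, c, x', y', z', e1, e2, e3, h4', h5'⟩ := step (ox w) (oy w) (oz w) h4 h5
    obtain ⟨b1, b2, b3⟩ := o_bound a c
    have hw1 : ox ((y', z', x' + y') : ℤ × ℤ × ℤ) = x' := by simp [ox]
    have hw2 : oy ((y', z', x' + y') : ℤ × ℤ × ℤ) = y' := by simp [oy]
    have hw3 : oz ((y', z', x' + y') : ℤ × ℤ × ℤ) = z' := by simp [oz]
    have p2 : (2 : ℤ) ^ (m + 1) = 2 * 2 ^ m := by ring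
    obtain ⟨s, s', hs, hs', hw⟩ := digits m (y', z', x' + y')
      (by rw [hw1]; omega) (by rw [hw2]; omega) (by rw [hw3]; omega)
      (by rw [hw1, hw2, hw3]; exact h4') (by rw [hw1, hw2, hw3]; exact h5')
    refine ⟨tv a + (2 : ℤ) • s, tv c + (2 : ℤ) • s', InS_lsb tv _ s a hs, InS_lsb tv _ s' c hs', ?_⟩
    have k1 : x' = ox s - ox s' := by rw [← hw1, hw, ox_sub]
    have k2 : y' = oy s - oy s' := by rw [← hw2, hw, oy_sub]
    have k3 : z' = oz s - oz s' := by rw [← hw3, hw, oz_sub]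
    apply ext_o
    · rw [ox_sub, ox_add, ox_add, ox_smul, ox_smul]; omega
    · rw [oy_sub, oy_add, oy_add, oy_smul, oy_smul]; omega
    · rw [oz_sub, oz_add, oz_add, oz_smul, oz_smul]; omega

end Pool.Agent.Lib_helper75.Sparse
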