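import Pool.Agent.Lib_helper75.Sparse.Local

/-!
# Sparse trace and expansiveness of the subshift
-/

namespace Pool.Agent.Lib_helper75.Sparse

theorem ty_dec : ∀ i j i' j' : Fin 4, i ≠ j → i' ≠ j' →
    (∀ a c : Fin 4, a ≠ c → ((c = i ∨ (a = i ∧ c = j)) ↔ (c = i' ∨ (a = i' ∧ c = j')))) →
    i = i' ∧ j = j' := by
  decide

theorem ty_unique {x : Config} {p : ℤ × ℤ × ℤ} {i j i' j' : Fin 4} (h : Ty x p i j)
    (h' : Ty x p i' j') : i = i' ∧ j = j' :=
  ty_dec i j i' j' h.1 h'.1 (fun a c hac => (h.2 a c hac).symm.trans (h'.2 a c hac))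

open Classical in
/-- The type of a centre. -/
noncomputable def II (x : Config) (p : ℤ × ℤ × ℤ) : Fin 4 :=
  if h : ∃ i j, Ty x p i j then h.choose else 0

open Classical in
/-- The contact of a centre. -/
noncomputable def JJ (x : Config) (p : ℤ × ℤ × ℤ) : Fin 4 :=
  if h : ∃ i j, Ty x p i j then h.choose_spec.choose else 0

theorem II_eq {x : Config} {p : ℤ × ℤ × ℤ} {i j : Fin 4} (h : Ty x p i j) :
    II x p = i ∧ JJ x p = j := by
  have hex : ∃ i j, Ty x p i j := ⟨i, j, h⟩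
  unfold II JJ
  rw [dif_pos hex, dif_pos hex]
  exact ty_unique hex.choose_spec.choose_spec h

theorem XX_lab {x : Config} (hx : x ∈ XX) : Lab tv (cen x) (II x) (JJ x) (bt x) := by
  have hr : ∀ p, cen x p → RuleC x p := fun p hp => (hx p).2 hp
  constructor
  · intro p hp
    obtain ⟨i, j, r1, _⟩ := hr p hp
    obtain ⟨e1, e2⟩ := II_eq r1
    rw [e1, e2]; exact r1.1.symm
  · intro p hp a c hac
    obtain ⟨i, j, r1, _⟩ := hr p hp
    obtain ⟨e1, e2⟩ := II_eq r1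
    rw [e1, e2]; exact r1.2 a c hac
  · intro p hp a
    obtain ⟨i, j, r1, r2, _⟩ := hr p hp
    obtain ⟨e1, e2⟩ := II_eq r1
    rw [e1]
    by_cases ha : a = i
    · subst ha
      rw [sub_self, add_zero]; exact e1
    · obtain ⟨j', s1, _⟩ := r2 a ha
      exact (II_eq s1).1
  · intro p hp
    obtain ⟨i, j, r1, r2, r3, _⟩ := hr p hp
    obtain ⟨e1, e2⟩ := II_eq r1
    rw [e1, e2]
    exact (II_eq r3).1
  · intro p hp
    obtain ⟨i, j, r1, r2, r3, _⟩ := hr p hp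
    obtain ⟨e1, e2⟩ := II_eq r1
    rw [e1, e2]
    exact (II_eq r3).2
  · intro p hp
    obtain ⟨i, j, r1, r2, r3, r4, _⟩ := hr p hp
    obtain ⟨e1, e2⟩ := II_eq r1
    rw [e1, e2]
    exact r4
  · intro p hp a ha hg
    obtain ⟨i, j, r1, r2, _⟩ := hr p hp
    obtain ⟨e1, e2⟩ := II_eq r1
    rw [e1] at ha hg ⊢
    obtain ⟨j', s1, s2⟩ := r2 a ha
    rw [e2, (II_eq s1).2]
    exact s2 hg

theorem XX_bit {x : Config} (hx : x ∈ XX) (p : ℤ × ℤ × ℤ) (hp : cen x p)
    (hg : ¬ good (II x p) (JJ x p)) : bt x p = false := by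
  obtain ⟨i, j, r1, r2, r3, r4, r5, _⟩ := (hx p).2 hp
  obtain ⟨e1, e2⟩ := II_eq r1
  rw [e1, e2] at hg
  exact r5 hg

theorem XX_sep5 {x : Config} (hx : x ∈ XX) (p : ℤ × ℤ × ℤ) (hp : cen x p) :
    ¬ cen x (p + (0, 0, 1)) := by
  obtain ⟨i, j, r1, r2, r3, r4, r5, r6⟩ := (hx p).2 hp
  exact r6

theorem XX_sep6 {x : Config} (p : ℤ × ℤ × ℤ) (hp : cen x p) :
    ¬ cen x (p + (0, 1, 0)) := by
  intro h
  have h2 := h.2
  rw [add_sub_cancel_right, hp.1] at h2
  exact Bool.noConfusion h2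

theorem XX_dec {x : Config} (hx : x ∈ XX) (p : ℤ × ℤ × ℤ) :
    x p = true ↔ (cen x p ∨ (cen x (p - (0, 1, 0)) ∧ bt x (p - (0, 1, 0)) = true)) := by
  constructor
  · intro h
    by_cases h1 : x (p - (0, 1, 0)) = true
    · right
      have hb : bt x (p - (0, 1, 0)) = true := by
        unfold bt; rw [sub_add_cancel]; exact h
      refine ⟨⟨h1, ?_⟩, hb⟩
      by_contra h2
      rw [Bool.not_eq_false] at h2
      have h3 := (hx (p - (0, 1, 0) - (0, 1, 0))).1 h2 (by rw [sub_add_cancel]; exact h1)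
      have e : p - (0, 1, 0) - (0, 1, 0) + (0, 2, 0) = p := by
        rw [sub_sub, sub_add]
        have : ((0, 1, 0) + (0, 1, 0) - (0, 2, 0) : ℤ × ℤ × ℤ) = 0 := by decide
        rw [this, sub_zero]
      rw [e, h] at h3
      exact Bool.noConfusion h3
    · left
      rw [Bool.not_eq_true] at h1
      exact ⟨h, h1⟩
  · rintro (h | ⟨_, h⟩)
    · exact h.1
    · unfold bt at h; rwa [sub_add_cancel] at h

theorem XX_sparse : IsSparse (trace XX) := by
  refine ⟨24, ?_⟩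
  rintro y ⟨x, hx, rfl⟩
  have hl := XX_lab hx
  have c1 := column hl (XX_sep5 hx) XX_sep6 0 0
  have c2 := column hl (XX_sep5 hx) XX_sep6 0 (-1)
  have hsub : {n : ℤ | x (0, 0, n) = true} ⊆
      {z : ℤ | cen x (0, 0, z)} ∪ {z : ℤ | cen x (0, -1, z)} := by
    intro n hn
    rcases (XX_dec hx (0, 0, n)).1 hn with h | h
    · left; exact h
    · right
      have e : ((0, 0, n) - (0, 1, 0) : ℤ × ℤ × ℤ) = (0, -1, n) := by
        ext <;> simp
      rw [e] at h
      exact h.1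
  calc {n : ℤ | x (0, 0, n) = true}.encard
      ≤ ({z : ℤ | cen x (0, 0, z)} ∪ {z : ℤ | cen x (0, -1, z)}).encard := Set.encard_le_encard hsub
    _ ≤ {z : ℤ | cen x (0, 0, z)}.encard + {z : ℤ | cen x (0, -1, z)}.encard :=
        Set.encard_union_le _ _
    _ ≤ 12 + 12 := add_le_add c1 c2
    _ = ((24 : ℕ) : ℕ∞) := by norm_num

/-- The height. -/
def hgt : (ℤ × ℤ × ℤ) →+ ℤ := (AddMonoidHom.snd ℤ ℤ).comp (AddMonoidHom.snd ℤ (ℤ × ℤ))

theorem hgt_apply (p : ℤ × ℤ × ℤ) : hgt p = p.2.2 := rfl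

theorem XX_exp : HorizontallyExpansive XX := by
  refine ⟨3, ?_⟩
  intro x hx y hy hxy
  have hxy' : ∀ p : ℤ × ℤ × ℤ, (-3 ≤ p.2.2 ∧ p.2.2 ≤ 3) → x p = y p := by
    intro p hp
    exact hxy p.1 p.2.1 p.2.2 (abs_le.2 hp)
  have hc : ∀ p : ℤ × ℤ × ℤ, (-3 ≤ p.2.2 ∧ p.2.2 ≤ 3) → (cen x p ↔ cen y p) := by
    intro p hp
    unfold cen
    rw [hxy' p hp, hxy' (p - (0, 1, 0)) (by simpa using hp)]
  have hty : ∀ p : ℤ × ℤ × ℤ, (-1 ≤ p.2.2 ∧ p.2.2 ≤ 1) → ∀ i j, (Ty x p i j ↔ Ty y p i j) := by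
    intro p hp i j
    unfold Ty
    have key : ∀ a c : Fin 4, cen x (p + (tv a - tv c)) ↔ cen y (p + (tv a - tv c)) := by
      intro a c
      obtain ⟨_, _, b3⟩ := tvb a c
      apply hc
      rw [Prod.snd_add, Prod.snd_add]; omega
    simp only [key]
  have L1 := XX_lab hx
  have L2 := XX_lab hy
  have hag0 : ∀ p : ℤ × ℤ × ℤ, (-1 ≤ p.2.2 ∧ p.2.2 ≤ 1) →
      Ag (cen x) (II x) (JJ x) (bt x) (cen y) (II y) (JJ y) (bt y) p := by
    intro p hp
    refine ⟨hc p (by omega), fun h => ?_⟩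
    obtain ⟨i, j, r1, _⟩ := (hx p).2 h
    obtain ⟨e1, e2⟩ := II_eq r1
    obtain ⟨e3, e4⟩ := II_eq ((hty p hp i j).1 r1)
    refine ⟨by rw [e1, e3], by rw [e2, e4], ?_⟩
    unfold bt
    refine (hxy' _ ?_).symm
    rw [Prod.snd_add, Prod.snd_add]
    simp only [add_zero]
    omega
  have hag : ∀ n : ℕ, ∀ p : ℤ × ℤ × ℤ, (-((n : ℤ) + 1) ≤ p.2.2 ∧ p.2.2 ≤ (n : ℤ) + 1) →
      Ag (cen x) (II x) (JJ x) (bt x) (cen y) (II y) (JJ y) (bt y) p := by
    intro n
    induction n with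
    | zero => intro p hp; exact hag0 p (by simpa using hp)
    | succ n ih =>
      intro p hp
      push_cast at hp
      by_cases h1 : p.2.2 ≤ (n : ℤ) + 1
      · by_cases h2 : -((n : ℤ) + 1) ≤ p.2.2
        · exact ih p ⟨h2, h1⟩
        · -- downwards
          refine next_row (t := tv) (-hgt) (lo := 3) (hi := 0) (Or.inr ⟨rfl, rfl⟩) (by decide)
            (by decide) (by decide) L1 L2 (XX_bit hx) (XX_bit hy) ((n : ℤ) + 2) ?_ ?_
          · intro q hq
            apply ih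
            simp only [AddMonoidHom.neg_apply, hgt_apply] at hq
            omega
          · simp only [AddMonoidHom.neg_apply, hgt_apply]
            omega
      · refine next_row (t := tv) hgt (lo := 0) (hi := 3) (Or.inl ⟨rfl, rfl⟩) (by decide)
            (by decide) (by decide) L1 L2 (XX_bit hx) (XX_bit hy) ((n : ℤ) + 2) ?_ ?_
        · intro q hq
          apply ih
          simp only [hgt_apply] at hq
          omega
        · simp only [hgt_apply]
          omega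
  have hall : ∀ p : ℤ × ℤ × ℤ,
      Ag (cen x) (II x) (JJ x) (bt x) (cen y) (II y) (JJ y) (bt y) p := by
    intro p
    apply hag p.2.2.natAbs p
    omega
  funext p
  have h1 := hall p
  have h2 := hall (p - (0, 1, 0))
  have e : (x p = true) ↔ (y p = true) := by
    rw [XX_dec hx p, XX_dec hy p]
    constructor
    · rintro (h | ⟨h, hb⟩)
      · exact Or.inl (h1.1.1 h)
      · right
        refine ⟨h2.1.1 h, ?_⟩
        rw [(h2.2 h).2.2]; exact hb
    · rintro (h | ⟨h, hb⟩)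
      · exact Or.inl (h1.1.2 h)
      · right
        have h' := h2.1.2 h
        refine ⟨h', ?_⟩
        rw [← (h2.2 h').2.2]; exact hb
  exact Bool.eq_iff_iff.2 e

end Pool.Agent.Lib_helper75.Sparse
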