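import Pool.Agent.Lib_helper75.Sparse.Seq
import Pool.Agent.Lib_helper75.Sparse.Props

/-!
# A nonzero point of the subshift
-/

namespace Pool.Agent.Lib_helper75.Sparse

/-- The reference address. -/
def dd (k : ℕ) : Fin 4 := ⟨k % 4, Nat.mod_lt _ (by norm_num)⟩

/-- The address `s` represents the point `p`. -/
def Rep (p : ℤ × ℤ × ℤ) (s : ℕ → Fin 4) : Prop :=
  ∃ N, (∀ k, N ≤ k → s k = dd k) ∧ p = DD N dd s

theorem DD_stable {N M : ℕ} {s s' : ℕ → Fin 4} (h : N ≤ M) (hs : ∀ k, N ≤ k → s' k = s k) :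
    DD M s s' = DD N s s' := by
  unfold DD
  symm
  apply Finset.sum_subset (Finset.range_subset_range.2 h)
  intro k _ hk
  rw [Finset.mem_range, not_lt] at hk
  rw [hs k hk, sub_self, smul_zero]

theorem DD_sub (N : ℕ) (s s' s'' : ℕ → Fin 4) : DD N s s'' - DD N s s' = DD N s' s'' := by
  unfold DD
  rw [← Finset.sum_sub_distrib]
  apply Finset.sum_congr rfl
  intro k _
  module

theorem Rep.diff {p p' : ℤ × ℤ × ℤ} {s s' : ℕ → Fin 4} (h : Rep p s) (h' : Rep p' s') :
    ∃ N, (∀ k, N ≤ k → s k = s' k) ∧ p' - p = DD N s s' := by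
  obtain ⟨N, h1, h2⟩ := h
  obtain ⟨N', h1', h2'⟩ := h'
  refine ⟨max N N', fun k hk => ?_, ?_⟩
  · rw [h1 k (le_trans (le_max_left _ _) hk), h1' k (le_trans (le_max_right _ _) hk)]
  · rw [h2, h2', ← DD_stable (le_max_left N N') h1, ← DD_stable (le_max_right N N') h1', DD_sub]

theorem Rep.move {p : ℤ × ℤ × ℤ} {s s' : ℕ → Fin 4} (h : Rep p s) {n : ℕ}
    (hs : ∀ k, n ≤ k → s' k = s k) : Rep (p + DD n s s') s' := by
  obtain ⟨N, h1, h2⟩ := h
  refine ⟨max N n, fun k hk => ?_, ?_⟩
  · rw [hs k (le_trans (le_max_right _ _) hk), h1 k (le_trans (le_max_left _ _) hk)]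
  · rw [h2, ← DD_stable (le_max_left N n) h1, ← DD_stable (le_max_right N n) hs,
      ← DD_sub (max N n) dd s s']
    abel

theorem Rep.unique {p : ℤ × ℤ × ℤ} {s s' : ℕ → Fin 4} (h : Rep p s) (h' : Rep p s') :
    s = s' := by
  obtain ⟨N, h1, h2⟩ := h.diff h'
  rw [sub_self] at h2
  funext k
  by_cases hk : k < N
  · exact DD_eq_zero N s s' h2.symm k hk
  · exact h1 k (not_lt.1 hk)

/-- Index of the first digit outside `{a, c}`. -/
noncomputable def ix (s : ℕ → Fin 4) (a c : Fin 4) : ℕ := sInf {k | s k ≠ a ∧ s k ≠ c}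

/-- The first digit outside `{a, c}`. -/
noncomputable def G (s : ℕ → Fin 4) (a c : Fin 4) : Fin 4 := s (ix s a c)

theorem G_eq {s : ℕ → Fin 4} {a c : Fin 4} {n : ℕ} (h1 : s n ≠ a) (h2 : s n ≠ c)
    (h : ∀ k < n, s k = a ∨ s k = c) : G s a c = s n := by
  have hn : n ∈ {k | s k ≠ a ∧ s k ≠ c} := ⟨h1, h2⟩
  have h3 : ix s a c ≤ n := Nat.sInf_le hn
  have h4 : s (ix s a c) ≠ a ∧ s (ix s a c) ≠ c := Nat.sInf_mem ⟨n, hn⟩
  have h5 : ix s a c = n := by
    by_contra hne
    rcases h (ix s a c) (by omega) with h6 | h6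
    · exact h4.1 h6
    · exact h4.2 h6
  unfold G
  rw [h5]

/-- Every pair of digits is left infinitely often. -/
def Rich (s : ℕ → Fin 4) : Prop := ∀ a c : Fin 4, ∃ k, s k ≠ a ∧ s k ≠ c

theorem Rep.rich {p : ℤ × ℤ × ℤ} {s : ℕ → Fin 4} (h : Rep p s) : Rich s := by
  obtain ⟨N, h1, _⟩ := h
  intro a c
  obtain ⟨b, h2, h3⟩ := exists_third a c
  refine ⟨4 * N + b.val, ?_⟩
  have h4 : s (4 * N + b.val) = b := by
    rw [h1 _ (by omega)]
    apply Fin.ext
    simp only [dd]
    have := b.isLt
    omega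
  rw [h4]
  exact ⟨h2, h3⟩

theorem Rich.spec {s : ℕ → Fin 4} (h : Rich s) (a c : Fin 4) :
    ∃ n, G s a c = s n ∧ s n ≠ a ∧ s n ≠ c ∧ ∀ k < n, s k = a ∨ s k = c := by
  refine ⟨ix s a c, rfl, ?_⟩
  have h4 : s (ix s a c) ≠ a ∧ s (ix s a c) ≠ c := Nat.sInf_mem (h a c)
  refine ⟨h4.1, h4.2, fun k hk => ?_⟩
  by_contra hcon
  rw [not_or] at hcon
  have h5 : ix s a c ≤ k := Nat.sInf_le (s := {k | s k ≠ a ∧ s k ≠ c}) hcon
  omega

/-- The bit of an address. -/
noncomputable def gb (s : ℕ → Fin 4) : Bool :=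
  decide (good (s 0) (G s (s 0) (s 0))) &&
    decide (thd (s 0) (G s (s 0) (s 0)) true = G s (s 0) (G s (s 0) (s 0)))

theorem thd_dec : ∀ i j k : Fin 4, i ≠ j → k ≠ i → k ≠ j →
    thd i j (decide (thd i j true = k)) = k := by
  decide

theorem lam_G {s : ℕ → Fin 4} (h : Rich s) {a c : Fin 4} (_hac : a ≠ c) (hg : good a c) :
    lam (s 0) (G s (s 0) (s 0)) (gb s) a c = G s a c := by
  obtain ⟨n, h1, h2, _, h3⟩ := h.spec (s 0) (s 0)
  have h3' : ∀ k < n, s k = s 0 := fun k hk => by
    rcases h3 k hk with h | h <;> exact h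
  by_cases hi : s 0 ≠ a ∧ s 0 ≠ c
  · unfold lam
    rw [if_pos hi]
    exact (G_eq hi.1 hi.2 (fun k hk => absurd hk (by omega))).symm
  · have hi' : s 0 = a ∨ s 0 = c := by
      by_contra hcon
      rw [not_or] at hcon
      exact hi hcon
    by_cases hj : s n ≠ a ∧ s n ≠ c
    · unfold lam
      rw [if_neg hi, h1, if_pos hj]
      exact (G_eq hj.1 hj.2 (fun k hk => by rw [h3' k hk]; exact hi')).symm
    · have hj' : s n = a ∨ s n = c := by
        by_contra hcon
        rw [not_or] at hcon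
        exact hj hcon
      unfold lam
      rw [if_neg hi, h1, if_neg hj]
      obtain ⟨m, k1, k2, k3, _⟩ := h.spec (s 0) (s n)
      unfold gb
      rw [h1]
      have hgood : good (s 0) (s n) := by
        rcases hi' with e | e <;> rcases hj' with e' | e'
        · exact absurd (e'.trans e.symm) h2
        · rw [e, e']; exact hg
        · rw [e, e']; exact good_symm hg
        · exact absurd (e'.trans e.symm) h2
      have hG : G s (s 0) (s n) = G s a c := by
        rcases hi' with e | e <;> rcases hj' with e' | e'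
        · exact absurd (e'.trans e.symm) h2
        · rw [e, e']
        · rw [e, e']
          unfold G ix
          congr 2
          ext k
          exact and_comm
        · exact absurd (e'.trans e.symm) h2
      simp only [hgood, decide_true, Bool.true_and]
      rw [thd_dec _ _ _ (fun e => h2 e.symm) (by rw [k1]; exact k2) (by rw [k1]; exact k3), hG]

/-- The set of centres of the example. -/
def PP (p : ℤ × ℤ × ℤ) : Prop := ∃ s, Rep p s

open Classical in
/-- The address of a centre. -/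
noncomputable def adr (p : ℤ × ℤ × ℤ) : ℕ → Fin 4 := if h : PP p then h.choose else dd

theorem adr_eq {p : ℤ × ℤ × ℤ} {s : ℕ → Fin 4} (h : Rep p s) : adr p = s := by
  have hp : PP p := ⟨s, h⟩
  unfold adr
  rw [dif_pos hp]
  exact hp.choose_spec.unique h

open Classical in
/-- The example. -/
noncomputable def xx : Config := fun p =>
  decide (PP p) || (decide (PP (p - (0, 1, 0))) && gb (adr (p - (0, 1, 0))))

theorem PP_no {p v : ℤ × ℤ × ℤ} (hv : (ox v + oy v + oz v) % 2 = 1) (h : PP p) :
    ¬ PP (p + v) := by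
  rintro ⟨s', h'⟩
  obtain ⟨s, h⟩ := h
  obtain ⟨N, _, h2⟩ := h.diff h'
  have := DD_even N s s'
  rw [← h2, add_sub_cancel_left] at this
  omega

theorem PP_no2 {p : ℤ × ℤ × ℤ} (h : PP p) : ¬ PP (p + (0, 2, 0)) := by
  rintro ⟨s', h'⟩
  obtain ⟨s, h⟩ := h
  obtain ⟨N, _, h2⟩ := h.diff h'
  rw [add_sub_cancel_left] at h2
  cases N with
  | zero => rw [DD_zero] at h2; revert h2; decide
  | succ N =>
    rw [DD_succ] at h2
    have h1 := congrArg ox h2
    have h3 := congrArg oy h2
    have h4 := congrArg oz h2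
    rw [ox_add, ox_smul] at h1
    rw [oy_add, oy_smul] at h3
    rw [oz_add, oz_smul] at h4
    have z1 : ox ((0, 2, 0) : ℤ × ℤ × ℤ) = 0 := rfl
    have z2 : oy ((0, 2, 0) : ℤ × ℤ × ℤ) = 0 := rfl
    have z3 : oz ((0, 2, 0) : ℤ × ℤ × ℤ) = 2 := rfl
    rw [z1] at h1
    rw [z2] at h3
    rw [z3] at h4
    have h0 : s' 0 = s 0 := par_inj _ _ (by omega) (by omega) (by omega)
    rw [h0, sub_self] at h1 h3 h4
    have y1 : ox (0 : ℤ × ℤ × ℤ) = 0 := rfl
    have y2 : oy (0 : ℤ × ℤ × ℤ) = 0 := rfl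
    have y3 : oz (0 : ℤ × ℤ × ℤ) = 0 := rfl
    rw [y1] at h1
    rw [y2] at h3
    rw [y3] at h4
    have := DD_even N (tl s) (tl s')
    omega

theorem xx_cen (p : ℤ × ℤ × ℤ) : cen xx p ↔ PP p := by
  have e1 : ∀ p : ℤ × ℤ × ℤ, PP p → ¬ PP (p - (0, 1, 0)) := by
    intro p h h'
    have := PP_no (v := (0, 1, 0)) (by decide) h'
    rw [sub_add_cancel] at this
    exact this h
  unfold cen xx
  constructor
  · rintro ⟨h1, h2⟩
    by_contra hp
    simp only [hp, decide_false, Bool.false_or, Bool.and_eq_true, decide_eq_true_eq] at h1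
    simp only [h1.1, decide_true, Bool.true_or] at h2
    exact Bool.noConfusion h2
  · intro hp
    have h3 : ¬ PP (p - (0, 1, 0) - (0, 1, 0)) := by
      intro h'
      have := PP_no2 h'
      apply this
      have e : p - (0, 1, 0) - (0, 1, 0) + (0, 2, 0) = p := by
        rw [sub_sub, sub_add]
        have : ((0, 1, 0) + (0, 1, 0) - (0, 2, 0) : ℤ × ℤ × ℤ) = 0 := by decide
        rw [this, sub_zero]
      rw [e]; exact hp
    refine ⟨by simp [hp], ?_⟩
    simp only [e1 p hp, h3, decide_false, Bool.false_or, Bool.false_and]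

theorem xx_bt {p : ℤ × ℤ × ℤ} {s : ℕ → Fin 4} (h : Rep p s) : bt xx p = gb s := by
  have hp : PP p := ⟨s, h⟩
  have h1 : ¬ PP (p + (0, 1, 0)) := PP_no (by decide) hp
  unfold bt xx
  rw [add_sub_cancel_right, adr_eq h]
  simp [hp, h1]

theorem xx_ty {p : ℤ × ℤ × ℤ} {s : ℕ → Fin 4} (h : Rep p s) :
    Ty xx p (s 0) (G s (s 0) (s 0)) := by
  obtain ⟨n, h1, h2, _, h3⟩ := h.rich.spec (s 0) (s 0)
  have h3' : ∀ k < n, s k = s 0 := fun k hk => by
    rcases h3 k hk with h | h <;> exact h
  refine ⟨by rw [h1]; exact fun e => h2 e.symm, ?_⟩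
  intro a c hac
  rw [xx_cen]
  constructor
  · rintro ⟨s', h'⟩
    obtain ⟨N, k1, k2⟩ := h.diff h'
    rw [add_sub_cancel_left] at k2
    obtain ⟨m, hm, q1, q2, q3, _⟩ := DD_eq N s s' a c hac k2.symm
    cases m with
    | zero => left; exact q2.symm
    | succ m =>
      right
      have ha : s 0 = a := (q1 0 (by omega)).1
      refine ⟨ha.symm, ?_⟩
      rw [ha]
      have := G_eq (s := s) (a := a) (c := a) (n := m + 1) (by rw [q2]; exact hac.symm)
        (by rw [q2]; exact hac.symm) (fun k hk => Or.inl (q1 k hk).1)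
      rw [this, q2]
  · rintro (hc | ⟨ha, hc⟩)
    · obtain ⟨s', q1, q2⟩ := exists_con 0 1 s a c (by omega) (fun k hk => absurd hk (by omega))
        hc.symm
      refine ⟨s', ?_⟩
      rw [← q2]
      exact h.move (fun k hk => q1 k (by omega))
    · rw [h1] at hc
      obtain ⟨s', q1, q2⟩ := exists_con n (n + 1) s a c (by omega)
        (fun k hk => by rw [h3' k hk, ha]) hc.symm
      refine ⟨s', ?_⟩
      rw [← q2]
      exact h.move (fun k hk => q1 k (by omega))

theorem xx_mem : xx ∈ XX := by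
  intro p
  constructor
  · intro h1 h2
    by_contra h3
    rw [Bool.not_eq_false] at h3
    have r : ∀ q : ℤ × ℤ × ℤ, xx q = true → PP q ∨ PP (q - (0, 1, 0)) := by
      intro q hq
      unfold xx at hq
      simp only [Bool.or_eq_true, Bool.and_eq_true, decide_eq_true_eq] at hq
      rcases hq with hq | hq
      · exact Or.inl hq
      · exact Or.inr hq.1
    have n1 : ∀ q : ℤ × ℤ × ℤ, PP q → ¬ PP (q + (0, 1, 0)) := fun q hq => PP_no (by decide) hq
    have e1 : p + (0, 2, 0) = p + (0, 1, 0) + (0, 1, 0) := by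
      rw [add_assoc]; rfl
    have e2 : p + (0, 2, 0) - (0, 1, 0) = p + (0, 1, 0) := by
      rw [e1, add_sub_cancel_right]
    have r1 := r _ h1
    have r2 := r _ h2
    have r3 := r _ h3
    rw [add_sub_cancel_right] at r2
    rw [e2] at r3
    rcases r2 with r2 | r2
    · -- PP (p + (0,1,0))
      rcases r1 with r1 | r1
      · exact n1 _ r1 r2
      · have := PP_no2 r1
        apply this
        have e : p - (0, 1, 0) + (0, 2, 0) = p + (0, 1, 0) := by
          ext
          · simp
          · simp; ring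
          · simp
        rw [e]; exact r2
    · -- PP p
      rcases r3 with r3 | r3
      · exact PP_no2 r2 r3
      · exact n1 _ r2 r3
  · intro hc
    rw [xx_cen] at hc
    obtain ⟨s, h⟩ := hc
    have hr := h.rich
    obtain ⟨n, h1, h2, _, h3⟩ := hr.spec (s 0) (s 0)
    have h3' : ∀ k < n, s k = s 0 := fun k hk => by
      rcases h3 k hk with h | h <;> exact h
    refine ⟨s 0, G s (s 0) (s 0), xx_ty h, ?_, ?_⟩
    · intro a ha
      obtain ⟨s', q1, q2⟩ := exists_con 0 1 s a (s 0) (by omega)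
        (fun k hk => absurd hk (by omega)) rfl
      have h' : Rep (p + (tv a - tv (s 0))) s' := by
        rw [← q2]; exact h.move (fun k hk => q1 k (by omega))
      have hs0 : s' 0 = a := by
        obtain ⟨m, hm, _, q3, q4, _⟩ := DD_eq 1 s s' a (s 0) ha q2
        have : m = 0 := by omega
        rw [this] at q4
        exact q4
      have ht := xx_ty h'
      rw [hs0] at ht
      refine ⟨G s' a a, ht, ?_⟩
      intro hg
      rw [xx_bt h, xx_bt h']
      have l1 := lam_G hr (a := s 0) (c := a) (fun e => ha e.symm) (good_symm hg)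
      have l2 := lam_G h'.rich (a := s 0) (c := a) (fun e => ha e.symm) (good_symm hg)
      rw [hs0] at l2
      rw [l1, l2]
      obtain ⟨m, k1, k2, k3, k4⟩ := hr.spec (s 0) a
      rw [k1]
      have hm : m ≠ 0 := by
        intro e; rw [e] at k2; exact k2 rfl
      symm
      rw [← q1 m (by omega)]
      apply G_eq
      · rw [q1 m (by omega)]; exact k2
      · rw [q1 m (by omega)]; exact k3
      · intro k hk
        by_cases hk0 : k = 0
        · right; rw [hk0]; exact hs0
        · rw [q1 k (by omega)]; exact k4 k hk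
    · obtain ⟨s', q1, q2⟩ := exists_con n (n + 1) s (s 0) (s n) (by omega) h3' rfl
      have h' : Rep (p + (tv (s 0) - tv (s n))) s' := by
        rw [← q2]; exact h.move (fun k hk => q1 k (by omega))
      have hn0 : n ≠ 0 := by
        intro e; rw [e] at h2; exact h2 rfl
      obtain ⟨m, hm, q3, q4, q5, q6⟩ := DD_eq (n + 1) s s' (s 0) (s n) (fun e => h2 e.symm) q2
      have hmn : m = n := by
        by_contra hne
        have : m < n := by omega
        rw [h3' m this] at q4
        exact h2 q4.symm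
      subst hmn
      have hs0 : s' 0 = s m := (q3 0 (by omega)).2
      have hGs' : G s' (s m) (s m) = s 0 := by
        rw [← q5]
        apply G_eq
        · rw [q5]; exact fun e => h2 e.symm
        · rw [q5]; exact fun e => h2 e.symm
        · intro k hk; left; exact (q3 k hk).2
      have ht := xx_ty h'
      rw [hs0, hGs'] at ht
      have hG3 : G s' (s m) (s 0) = G s (s 0) (s m) := by
        obtain ⟨l, k1, k2, k3, k4⟩ := hr.spec (s 0) (s m)
        have hlm : m < l := by
          rcases lt_trichotomy l m with hl | hl | hl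
          · exact absurd (h3' l hl) k2
          · rw [hl] at k3; exact absurd rfl k3
          · exact hl
        rw [k1, ← q1 l hlm]
        apply G_eq
        · rw [q1 l hlm]; exact k3
        · rw [q1 l hlm]; exact k2
        · intro k hk
          rcases lt_trichotomy k m with hkm | hkm | hkm
          · left; exact (q3 k hkm).2
          · right; rw [hkm]; exact q5
          · rw [q1 k hkm]; exact (k4 k hk).symm
      have hbit : gb s' = gb s := by
        unfold gb
        rw [hs0, hGs', h1, hG3, thd_symm]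
        have : decide (good (s m) (s 0)) = decide (good (s 0) (s m)) := by
          rw [decide_eq_decide]; exact ⟨good_symm, good_symm⟩
        rw [this]
      rw [h1]
      refine ⟨ht, ?_, ?_, ?_⟩
      · rw [xx_bt h, xx_bt h', hbit]
      · intro hg
        rw [xx_bt h]
        unfold gb
        rw [h1]
        simp [hg]
      · rw [xx_cen]
        exact PP_no (by decide) ⟨s, h⟩

theorem xx_ne : ∃ u, xx u = true := by
  have h : PP 0 := ⟨dd, 0, fun k _ => rfl, rfl⟩
  refine ⟨0, ?_⟩
  exact ((xx_cen 0).2 h).1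

end Pool.Agent.Lib_helper75.Sparse
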