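import Pool.Agent.Lib_helper75.Sparse.Example

/-!
# The main theorem
-/

namespace Pool.Agent.Lib_helper75.Sparse

theorem main_sparse : ∃ X : Set Config, IsSFT X ∧ (∃ x ∈ X, ∃ u, x u = true) ∧
    IsSparse (trace X) ∧ HorizontallyExpansive X :=
  ⟨XX, XX_sft, ⟨xx, xx_mem, xx_ne⟩, XX_sparse, XX_exp⟩

end Pool.Agent.Lib_helper75.Sparse
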