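import Pool.Agent.Lib_helper75.Sparse.Defs
import Pool.Agent.Lib_helper75.Sparse.Column
import Pool.Agent.Lib_helper75.Sparse.Det

/-!
# The local rule
-/

namespace Pool.Agent.Lib_helper75.Sparse

/-- Centres. -/
def cen (x : Config) (p : ℤ × ℤ × ℤ) : Prop := x p = true ∧ x (p - (0, 1, 0)) = false

/-- The bit of a centre. -/
def bt (x : Config) (p : ℤ × ℤ × ℤ) : Bool := x (p + (0, 1, 0))

/-- The centre has type `i` and contact `j`. -/
def Ty (x : Config) (p : ℤ × ℤ × ℤ) (i j : Fin 4) : Prop :=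
  i ≠ j ∧ ∀ a c, a ≠ c → (cen x (p + (tv a - tv c)) ↔ (c = i ∨ (a = i ∧ c = j)))

/-- The rule at a centre. -/
def RuleC (x : Config) (p : ℤ × ℤ × ℤ) : Prop :=
  ∃ i j, Ty x p i j ∧
    (∀ a, a ≠ i → ∃ j', Ty x (p + (tv a - tv i)) a j' ∧
      (good a i → lam i j (bt x p) i a = lam a j' (bt x (p + (tv a - tv i))) i a)) ∧
    Ty x (p + (tv i - tv j)) j i ∧ bt x (p + (tv i - tv j)) = bt x p ∧
    (¬ good i j → bt x p = false) ∧ ¬ cen x (p + (0, 0, 1))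

/-- The local rule. -/
def Rule (x : Config) (p : ℤ × ℤ × ℤ) : Prop :=
  (x p = true → x (p + (0, 1, 0)) = true → x (p + (0, 2, 0)) = false) ∧ (cen x p → RuleC x p)

/-- The subshift. -/
def XX : Set Config := {x | ∀ p, Rule x p}

/-- Equality of windows. -/
def Win (x y : Config) (p q : ℤ × ℤ × ℤ) : Prop :=
  ∀ w : ℤ × ℤ × ℤ, (-2 ≤ w.1 ∧ w.1 ≤ 2) → (-3 ≤ w.2.1 ∧ w.2.1 ≤ 3) → (-4 ≤ w.2.2 ∧ w.2.2 ≤ 4) →
    x (p + w) = y (q + w)

theorem winSymm {x y : Config} {p q : ℤ × ℤ × ℤ} (h : Win x y p q) : Win y x q p :=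
  fun w h1 h2 h3 => (h w h1 h2 h3).symm

theorem winCen {x y : Config} {p q : ℤ × ℤ × ℤ} (h : Win x y p q) (v : ℤ × ℤ × ℤ)
    (h1 : -2 ≤ v.1 ∧ v.1 ≤ 2) (h2 : -2 ≤ v.2.1 ∧ v.2.1 ≤ 2) (h3 : -4 ≤ v.2.2 ∧ v.2.2 ≤ 4) :
    cen x (p + v) ↔ cen y (q + v) := by
  unfold cen
  have e1 : p + v - (0, 1, 0) = p + (v - (0, 1, 0)) := by abel
  have e2 : q + v - (0, 1, 0) = q + (v - (0, 1, 0)) := by abel
  rw [e1, e2, h v h1 (by omega) h3, h (v - (0, 1, 0)) (by simp; omega) (by simp; omega)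
    (by simp; omega)]

theorem tvb (a c : Fin 4) : (-1 ≤ (tv a - tv c).1 ∧ (tv a - tv c).1 ≤ 1) ∧
    (-1 ≤ (tv a - tv c).2.1 ∧ (tv a - tv c).2.1 ≤ 1) ∧
    (-2 ≤ (tv a - tv c).2.2 ∧ (tv a - tv c).2.2 ≤ 2) := by
  revert a c; decide

theorem winTy {x y : Config} {p q : ℤ × ℤ × ℤ} (h : Win x y p q) (v : ℤ × ℤ × ℤ)
    (h1 : -1 ≤ v.1 ∧ v.1 ≤ 1) (h2 : -1 ≤ v.2.1 ∧ v.2.1 ≤ 1) (h3 : -2 ≤ v.2.2 ∧ v.2.2 ≤ 2)
    (i j : Fin 4) : Ty x (p + v) i j ↔ Ty y (q + v) i j := by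
  unfold Ty
  have key : ∀ a c : Fin 4, cen x (p + v + (tv a - tv c)) ↔ cen y (q + v + (tv a - tv c)) := by
    intro a c
    obtain ⟨b1, b2, b3⟩ := tvb a c
    rw [add_assoc, add_assoc]
    apply winCen h
    · rw [Prod.fst_add]; omega
    · rw [Prod.snd_add, Prod.fst_add]; omega
    · rw [Prod.snd_add, Prod.snd_add]; omega
  simp only [key]

theorem winBt {x y : Config} {p q : ℤ × ℤ × ℤ} (h : Win x y p q) (v : ℤ × ℤ × ℤ)
    (h1 : -1 ≤ v.1 ∧ v.1 ≤ 1) (h2 : -1 ≤ v.2.1 ∧ v.2.1 ≤ 1) (h3 : -2 ≤ v.2.2 ∧ v.2.2 ≤ 2) :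
    bt x (p + v) = bt y (q + v) := by
  unfold bt
  rw [add_assoc, add_assoc]
  apply h
  · simp; omega
  · simp; omega
  · simp; omega

theorem winRuleC {x y : Config} {p q : ℤ × ℤ × ℤ} (h : Win x y p q) (hr : RuleC x p) :
    RuleC y q := by
  obtain ⟨i, j, r1, r2, r3, r4, r5, r6⟩ := hr
  have ty0 : ∀ i j, Ty x p i j ↔ Ty y q i j := by
    intro i j
    have := winTy h 0 (by decide) (by decide) (by decide) i j
    rwa [add_zero, add_zero] at this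
  have bt0 : bt x p = bt y q := by
    have := winBt h 0 (by decide) (by decide) (by decide)
    rwa [add_zero, add_zero] at this
  have tyv : ∀ a c i j, Ty x (p + (tv a - tv c)) i j ↔ Ty y (q + (tv a - tv c)) i j := by
    intro a c i j
    obtain ⟨b1, b2, b3⟩ := tvb a c
    exact winTy h _ b1 b2 b3 i j
  have btv : ∀ a c, bt x (p + (tv a - tv c)) = bt y (q + (tv a - tv c)) := by
    intro a c
    obtain ⟨b1, b2, b3⟩ := tvb a c
    exact winBt h _ b1 b2 b3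
  refine ⟨i, j, (ty0 i j).1 r1, ?_, (tyv i j j i).1 r3, ?_, ?_, ?_⟩
  · intro a ha
    obtain ⟨j', s1, s2⟩ := r2 a ha
    refine ⟨j', (tyv a i a j').1 s1, ?_⟩
    rw [← bt0, ← btv]
    exact s2
  · rw [← bt0, ← btv]; exact r4
  · rw [← bt0]; exact r5
  · rw [← winCen h (0, 0, 1) (by decide) (by decide) (by decide)]; exact r6

theorem winRule {x y : Config} {p q : ℤ × ℤ × ℤ} (h : Win x y p q) (hr : Rule x p) :
    Rule y q := by
  obtain ⟨r1, r2⟩ := hr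
  have e0 : x p = y q := by
    have := h 0 (by decide) (by decide) (by decide)
    rwa [add_zero, add_zero] at this
  constructor
  · rw [← e0, ← h (0, 1, 0) (by decide) (by decide) (by decide),
      ← h (0, 2, 0) (by decide) (by decide) (by decide)]
    exact r1
  · intro hc
    apply winRuleC h
    apply r2
    have := winCen h 0 (by decide) (by decide) (by decide)
    rw [add_zero, add_zero] at this
    exact this.2 hc

/-- The window. -/
noncomputable def WW : Finset (ℤ × ℤ × ℤ) :=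
  (Finset.Icc (-2 : ℤ) 2) ×ˢ ((Finset.Icc (-3 : ℤ) 3) ×ˢ (Finset.Icc (-4 : ℤ) 4))

theorem mem_WW (w : ℤ × ℤ × ℤ) : w ∈ WW ↔
    (-2 ≤ w.1 ∧ w.1 ≤ 2) ∧ (-3 ≤ w.2.1 ∧ w.2.1 ≤ 3) ∧ (-4 ≤ w.2.2 ∧ w.2.2 ≤ 4) := by
  simp only [WW, Finset.mem_product, Finset.mem_Icc]

open Classical in
theorem XX_sft : IsSFT XX := by
  let cfg : Finset (ℤ × ℤ × ℤ) → Config := fun A w => decide (w ∈ A)
  refine ⟨(WW.powerset.filter (fun A => ¬ Rule (cfg A) 0)).image (fun A => (WW, A)), ?_⟩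
  ext x
  simp only [XX, Set.mem_ofPred_eq, Finset.mem_image, Finset.mem_filter, Finset.mem_powerset]
  constructor
  · rintro hx u Q ⟨A, ⟨hA, hr⟩, rfl⟩ hocc
    apply hr
    apply winRule (x := x) (p := u) _ (hx u)
    intro w h1 h2 h3
    have := hocc w ((mem_WW w).2 ⟨h1, h2, h3⟩)
    simp only [cfg, zero_add]
    by_cases hw : w ∈ A
    · rw [this.2 hw]; simp [hw]
    · have h4 : x (u + w) = false := by
        rw [← Bool.not_eq_true]; exact fun h => hw (this.1 h)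
      rw [h4]; simp [hw]
  · intro hx u
    by_contra hr
    refine hx u (WW, WW.filter (fun w => x (u + w) = true)) ⟨_, ⟨Finset.filter_subset _ _, ?_⟩,
      rfl⟩ ?_
    · intro hr'
      apply hr
      apply winRule _ hr'
      intro w h1 h2 h3
      have hw : w ∈ WW := (mem_WW w).2 ⟨h1, h2, h3⟩
      simp only [cfg, zero_add, Finset.mem_filter, hw, true_and]
      cases hxw : x (u + w) <;> simp
    · intro w hw
      simp only [Finset.mem_filter]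
      exact ⟨fun h => ⟨hw, h⟩, fun h => h.2⟩

end Pool.Agent.Lib_helper75.Sparse
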