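import Pool.Agent.Lib_helper75.Sparse.Abs

/-!
# Renormalisation of labelled structures
-/

namespace Pool.Agent.Lib_helper75.Sparse

open Classical in
/-- The digit of a block. -/
noncomputable def dig {V : Type} [AddCommGroup V] (t : Fin 4 → V) (J : V → Fin 4) (u : V) :
    Fin 4 :=
  if h : ∃ d : Fin 4, ∀ a, a ≠ d → J (cor t u a) = d then h.choose else 0

variable {V : Type} [AddCommGroup V] {t : Fin 4 → V} {P : V → Prop} {I J : V → Fin 4}
  {B : V → Bool}

theorem Lab.digSpec (h : Lab t P I J B) {u : V} (hu : base P I u) {a : Fin 4}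
    (ha : a ≠ dig t J u) : J (cor t u a) = dig t J u := by
  have hs := h.std hu
  have e : dig t J u = hs.choose := by unfold dig; rw [dif_pos hs]
  rw [e] at ha ⊢
  exact hs.choose_spec a ha

theorem exists_third (a b : Fin 4) : ∃ c : Fin 4, c ≠ a ∧ c ≠ b := by
  revert a b; decide

theorem Lab.dig_eq (h : Lab t P I J B) {u : V} (hu : base P I u) {d : Fin 4}
    (hd : ∀ a, a ≠ d → J (cor t u a) = d) : dig t J u = d := by
  obtain ⟨c, h1, h2⟩ := exists_third d (dig t J u)
  rw [← h.digSpec hu h2, hd c h1]

theorem Lab.dig_sib (h : Lab t P I J B) {u : V} (hu : base P I u) {a : Fin 4}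
    (ha : a ≠ dig t J u) :
    dig t J (u + (2 : ℤ) • (t a - t (dig t J u))) = a := by
  have hu' : base P I (u + (2 : ℤ) • (t a - t (dig t J u))) := (h.nbr hu ha).2 (h.digSpec hu ha)
  apply h.dig_eq hu'
  intro c hc
  by_cases hcd : c = dig t J u
  · rw [hcd]
    exact h.nbrJ hu (h.digSpec hu ha)
  · have h1 : base P I (u + (2 : ℤ) • (t c - t (dig t J u))) :=
      (h.nbr hu hcd).2 (h.digSpec hu hcd)
    have e : u + (2 : ℤ) • (t c - t (dig t J u)) =
        u + (2 : ℤ) • (t a - t (dig t J u)) + (2 : ℤ) • (t c - t a) := by module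
    rw [e] at h1
    exact (h.nbr hu' hc).1 h1

theorem Lab.dig_con (h : Lab t P I J B) {u : V} (hu : base P I u) {d j : Fin 4}
    (hd : dig t J u = d) (hj : J (cor t u d) = j) :
    base P I (u + (2 : ℤ) • (t d - t j)) ∧ dig t J (u + (2 : ℤ) • (t d - t j)) = j := by
  have hdj : d ≠ j := by
    intro e
    exact h.ncor hu d (by rw [hj, e])
  have hq : base P I (u + (2 : ℤ) • (t d - t j)) := (h.nbr hu hdj).2 hj
  refine ⟨hq, ?_⟩
  have h1 : J (cor t (u + (2 : ℤ) • (t d - t j)) j) = d := h.nbrJ hu hj
  by_contra hne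
  have h2 := h.digSpec hq (a := j) (fun e => hne e.symm)
  rw [h1] at h2
  have h3 := h.dig_sib hq (a := j) (fun e => hne e.symm)
  have e : u + (2 : ℤ) • (t d - t j) + (2 : ℤ) • (t j - t (dig t J (u + (2 : ℤ) • (t d - t j)))) =
      u := by
    rw [← h2]; module
  rw [e, hd] at h3
  exact hdj h3

/-- The new contact. -/
noncomputable def conN (t : Fin 4 → V) (J : V → Fin 4) (u : V) : Fin 4 := J (cor t u (dig t J u))

/-- The new bit. -/
noncomputable def bitN (t : Fin 4 → V) (J : V → Fin 4) (B : V → Bool) (u : V) : Bool :=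
  B (cor t u (dig t J u))

theorem Lab.renorm (h : Lab t P I J B) :
    Lab (fun a => (2 : ℤ) • t a) (base P I) (dig t J) (conN t J) (bitN t J B) := by
  have sm : ∀ a c : Fin 4, (2 : ℤ) • t a - (2 : ℤ) • t c = (2 : ℤ) • (t a - t c) := by
    intro a c; module
  constructor
  · intro u hu
    exact h.ncor hu _
  · intro u hu a c hac
    simp only [sm]
    rw [h.nbr hu hac]
    by_cases ha : a = dig t J u
    · constructor
      · intro hj
        right
        refine ⟨ha, ?_⟩
        unfold conN
        rw [← ha, hj]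
      · rintro (hc | ⟨_, hc⟩)
        · exact absurd (ha.trans hc.symm) hac
        · rw [hc]; unfold conN; rw [ha]
    · rw [h.digSpec hu ha]
      constructor
      · intro hj; left; exact hj.symm
      · rintro (hc | ⟨h1, _⟩)
        · exact hc.symm
        · exact absurd h1 ha
  · intro u hu a
    simp only [sm]
    by_cases ha : a = dig t J u
    · rw [← ha]; simp [ha]
    · exact h.dig_sib hu ha
  · intro u hu
    simp only [sm]
    exact (h.dig_con hu rfl rfl).2
  · intro u hu
    simp only [sm]
    have h1 := (h.dig_con hu rfl rfl)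
    have h2 : J (cor t (u + (2 : ℤ) • (t (dig t J u) - t (J (cor t u (dig t J u)))))
      (J (cor t u (dig t J u)))) = dig t J u := h.nbrJ hu rfl
    have h3 := h1.2
    unfold conN
    rw [h3]
    exact h2
  · intro u hu
    simp only [sm]
    have h1 := (h.dig_con hu rfl rfl)
    have h2 := h.nbrB hu (a := dig t J u) rfl
    have h3 := h1.2
    unfold bitN conN
    rw [h3]
    exact h2
  · intro u hu a ha hg
    simp only [sm]
    have hja : J (cor t u a) = dig t J u := h.digSpec hu ha
    have hu' : base P I (u + (2 : ℤ) • (t a - t (dig t J u))) := (h.nbr hu ha).2 hja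
    have hd' : dig t J (u + (2 : ℤ) • (t a - t (dig t J u))) = a := h.dig_sib hu ha
    have hj' : J (cor t (u + (2 : ℤ) • (t a - t (dig t J u))) (dig t J u)) = a := h.nbrJ hu hja
    have hb' := h.nbrB hu hja
    have l1 := h.lineCor hu (a := dig t J u) (c := a) ha.symm (good_symm hg)
    have l2 := h.lineCor hu' (a := dig t J u) (c := a) ha.symm (good_symm hg)
    unfold conN bitN
    rw [hd']
    rw [l1, ← l2, hja, hj', hb']
    generalize dig t J u = d
    generalize B (cor t u a) = b
    rw [lam_symm a d b d a, lam_of_eq, lam_of_eq, thd_symm]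

end Pool.Agent.Lib_helper75.Sparse
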