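import Pool.Agent.Lib_helper75.Sparse.Digits

/-!
# Separation of blocks and the number of centres in a column
-/

namespace Pool.Agent.Lib_helper75.Sparse

theorem InS_range : ∀ (n : ℕ) (s : ℤ × ℤ × ℤ), InS tv n s →
    (0 ≤ ox s ∧ ox s < 2 ^ n) ∧ (0 ≤ oy s ∧ oy s < 2 ^ n) ∧ (0 ≤ oz s ∧ oz s < 2 ^ n)
  | 0, s, h => by
    rw [show s = 0 from h]; simp [ox, oy, oz]
  | n + 1, s, h => by
    obtain ⟨a, s', hs', rfl⟩ := h
    obtain ⟨h1, h2, h3⟩ := InS_range n s' hs'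
    have ha : (0 ≤ ox (tv a) ∧ ox (tv a) ≤ 1) ∧ (0 ≤ oy (tv a) ∧ oy (tv a) ≤ 1) ∧
        (0 ≤ oz (tv a) ∧ oz (tv a) ≤ 1) := by
      revert a; decide
    have p2 : (2 : ℤ) ^ (n + 1) = 2 * 2 ^ n := by ring
    have hp : (0 : ℤ) < 2 ^ n := by positivity
    simp only [ox_add, oy_add, oz_add, ox_smul, oy_smul, oz_smul]
    refine ⟨⟨?_, ?_⟩, ⟨?_, ?_⟩, ⟨?_, ?_⟩⟩ <;> nlinarith [ha.1.1, ha.1.2, ha.2.1.1, ha.2.1.2,
      ha.2.2.1, ha.2.2.2]

theorem tv_inj : ∀ a c : Fin 4, oy (tv a) = oy (tv c) → oz (tv a) = oz (tv c) → a = c := by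
  decide

theorem bit_lem {N b b' r r' : ℤ} (hr : 0 ≤ r ∧ r < N) (hr' : 0 ≤ r' ∧ r' < N)
    (hb : 0 ≤ b ∧ b ≤ 1) (hb' : 0 ≤ b' ∧ b' ≤ 1) (h : r + N * b = r' + N * b') :
    b = b' ∧ r = r' := by
  have hb1 : b = 0 ∨ b = 1 := by omega
  have hb2 : b' = 0 ∨ b' = 1 := by omega
  rcases hb1 with rfl | rfl <;> rcases hb2 with rfl | rfl <;> constructor <;> omega

theorem InS_inj : ∀ (n : ℕ) (s s' : ℤ × ℤ × ℤ), InS tv n s → InS tv n s' → oy s = oy s' →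
    oz s = oz s' → s = s'
  | 0, s, s', h, h', _, _ => by
    rw [show s = 0 from h, show s' = 0 from h']
  | n + 1, s, s', h, h', e2, e3 => by
    obtain ⟨a, r, hr, rfl⟩ := h
    obtain ⟨a', r', hr', rfl⟩ := h'
    obtain ⟨_, h2, h3⟩ := InS_range n r hr
    obtain ⟨_, h2', h3'⟩ := InS_range n r' hr'
    have hb : ∀ a : Fin 4, (0 ≤ oy (tv a) ∧ oy (tv a) ≤ 1) ∧ (0 ≤ oz (tv a) ∧ oz (tv a) ≤ 1) := by
      decide
    rw [oy_add, oy_add, oy_smul, oy_smul] at e2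
    rw [oz_add, oz_add, oz_smul, oz_smul] at e3
    obtain ⟨k1, k2⟩ := bit_lem h2 h2' (hb a).1 (hb a').1 e2
    obtain ⟨k3, k4⟩ := bit_lem h3 h3' (hb a).2 (hb a').2 e3
    have ha : a = a' := tv_inj a a' k1 k3
    have hr : r = r' := InS_inj n r r' hr hr' k2 k4
    rw [ha, hr]

theorem sep {P Pn : ℤ × ℤ × ℤ → Prop} {In Jn : ℤ × ℤ × ℤ → Fin 4} {Bn : ℤ × ℤ × ℤ → Bool}
    {β : ℤ × ℤ × ℤ → ℤ × ℤ × ℤ} {m : ℕ}
    (h5 : ∀ p, P p → ¬ P (p + (0, 0, 1))) (h6 : ∀ p, P p → ¬ P (p + (0, 1, 0)))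
    (hb : Blk tv P (m + 1) Pn In Jn Bn β) {u u' : ℤ × ℤ × ℤ} (hu : Pn u) (hu' : Pn u')
    (h1 : -(2 ^ m) < ox (u' - u) ∧ ox (u' - u) < 2 ^ m)
    (h2 : -(2 ^ m) < oy (u' - u) ∧ oy (u' - u) < 2 ^ m)
    (h3 : -(2 ^ m) < oz (u' - u) ∧ oz (u' - u) < 2 ^ m) : u = u' := by
  have key : ∀ f : ℤ × ℤ × ℤ, (-1 ≤ ox f ∧ ox f ≤ 1) → (-1 ≤ oy f ∧ oy f ≤ 1) →
      (-1 ≤ oz f ∧ oz f ≤ 1) →
      (ox (u' - u) - ox f + (oy (u' - u) - oy f) + (oz (u' - u) - oz f)) % 2 = 0 →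
      ¬ ((ox (u' - u) - ox f) % 2 = 0 ∧ (oy (u' - u) - oy f) % 2 = 0 ∧
        (oz (u' - u) - oz f) % 2 = 0) →
      ∃ p, P p ∧ P (p + f) ∧ β p = u ∧ β (p + f) = u' := by
    intro f f1 f2 f3 f4 f5
    obtain ⟨s, s', hs, hs', hw⟩ := digits m (u' - u - f) (by rw [ox_sub]; omega)
      (by rw [oy_sub (u' - u)]; omega) (by rw [oz_sub (u' - u)]; omega)
      (by rw [ox_sub (u' - u), oy_sub (u' - u), oz_sub (u' - u)]; exact f4)
      (by rw [ox_sub (u' - u), oy_sub (u' - u), oz_sub (u' - u)]; exact f5)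
    have e : u + s + f = u' + s' := by
      have : s = u' - u - f + s' := by rw [hw]; abel
      rw [this]; abel
    obtain ⟨k1, k2⟩ := hb.full u hu s hs
    obtain ⟨k3, k4⟩ := hb.full u' hu' s' hs'
    exact ⟨u + s, k1, by rw [e]; exact k3, k2, by rw [e]; exact k4⟩
  by_cases hpar : (ox (u' - u) + oy (u' - u) + oz (u' - u)) % 2 = 0
  · by_cases hev : ox (u' - u) % 2 = 0 ∧ oy (u' - u) % 2 = 0 ∧ oz (u' - u) % 2 = 0
    · -- all even
      obtain ⟨p, k1, k2, k3, k4⟩ := key (tv 1 - tv 0) (by decide) (by decide) (by decide)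
        (by
          have e1 : ox (tv 1 - tv 0) = 1 := by decide
          have e2 : oy (tv 1 - tv 0) = 0 := by decide
          have e3 : oz (tv 1 - tv 0) = 1 := by decide
          rw [e1, e2, e3]; omega)
        (by
          have e1 : ox (tv 1 - tv 0) = 1 := by decide
          rw [e1]; omega)
      rcases hb.adj p 1 0 (by decide) k1 k2 with h | h
      · rw [k3, k4] at h; exact h.symm
      · rw [k3, k4] at h
        exfalso
        have e1 : ox (u' - u) = 2 ^ (m + 1) := by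
          rw [h]
          have : u + (2 : ℤ) ^ (m + 1) • (tv 1 - tv 0) - u = (2 : ℤ) ^ (m + 1) • (tv 1 - tv 0) := by
            abel
          rw [this, ox_smul]
          have e1 : ox (tv 1 - tv 0) = 1 := by decide
          rw [e1, mul_one]
        have p2 : (2 : ℤ) ^ (m + 1) = 2 * 2 ^ m := by ring
        have hp : (0 : ℤ) < 2 ^ m := by positivity
        omega
    · obtain ⟨p, _, _, k3, k4⟩ := key 0 (by decide) (by decide) (by decide)
        (by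
          have e1 : ox (0 : ℤ × ℤ × ℤ) = 0 := by decide
          have e2 : oy (0 : ℤ × ℤ × ℤ) = 0 := by decide
          have e3 : oz (0 : ℤ × ℤ × ℤ) = 0 := by decide
          rw [e1, e2, e3]; omega)
        (by
          have e1 : ox (0 : ℤ × ℤ × ℤ) = 0 := by decide
          have e2 : oy (0 : ℤ × ℤ × ℤ) = 0 := by decide
          have e3 : oz (0 : ℤ × ℤ × ℤ) = 0 := by decide
          rw [e1, e2, e3]; simpa using hev)
      rw [add_zero] at k4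
      rw [← k3, ← k4]
  · exfalso
    by_cases hz : ox (u' - u) % 2 = 0 ∧ oy (u' - u) % 2 = 0
    · obtain ⟨p, k1, k2, _, _⟩ := key (0, 0, 1) (by decide) (by decide) (by decide)
        (by
          have e1 : ox ((0, 0, 1) : ℤ × ℤ × ℤ) = 1 := by decide
          have e2 : oy ((0, 0, 1) : ℤ × ℤ × ℤ) = 0 := by decide
          have e3 : oz ((0, 0, 1) : ℤ × ℤ × ℤ) = 0 := by decide
          rw [e1, e2, e3]; omega)
        (by
          have e1 : ox ((0, 0, 1) : ℤ × ℤ × ℤ) = 1 := by decide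
          rw [e1]; omega)
      exact h5 p k1 k2
    · obtain ⟨p, k1, k2, _, _⟩ := key (0, 1, 0) (by decide) (by decide) (by decide)
        (by
          have e1 : ox ((0, 1, 0) : ℤ × ℤ × ℤ) = 0 := by decide
          have e2 : oy ((0, 1, 0) : ℤ × ℤ × ℤ) = 0 := by decide
          have e3 : oz ((0, 1, 0) : ℤ × ℤ × ℤ) = 1 := by decide
          rw [e1, e2, e3]; omega)
        (by
          have e1 : ox ((0, 1, 0) : ℤ × ℤ × ℤ) = 0 := by decide
          have e2 : oy ((0, 1, 0) : ℤ × ℤ × ℤ) = 0 := by decide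
          rw [e1, e2]; omega)
      exact h6 p k1 k2

end Pool.Agent.Lib_helper75.Sparse
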