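import Pool.Agent.Lib_helper75.Sparse.Digits

/-!
# Addresses
-/

namespace Pool.Agent.Lib_helper75.Sparse

/-- Difference of the positions of two addresses, up to level `N`. -/
def DD (N : ℕ) (s s' : ℕ → Fin 4) : ℤ × ℤ × ℤ :=
  ∑ k ∈ Finset.range N, (2 : ℤ) ^ k • (tv (s' k) - tv (s k))

/-- Tail of an address. -/
def tl (s : ℕ → Fin 4) : ℕ → Fin 4 := fun k => s (k + 1)

theorem DD_succ (N : ℕ) (s s' : ℕ → Fin 4) :
    DD (N + 1) s s' = (tv (s' 0) - tv (s 0)) + (2 : ℤ) • DD N (tl s) (tl s') := by
  unfold DD tl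
  rw [Finset.sum_range_succ', Finset.smul_sum, pow_zero, one_smul, add_comm]
  congr 1
  apply Finset.sum_congr rfl
  intro k _
  rw [smul_smul, ← pow_succ']

theorem DD_zero (s s' : ℕ → Fin 4) : DD 0 s s' = 0 := rfl

theorem sum_even (a c : Fin 4) : (ox (tv a - tv c) + oy (tv a - tv c) + oz (tv a - tv c)) % 2 = 0 := by
  revert a c; decide

theorem DD_even (N : ℕ) (s s' : ℕ → Fin 4) :
    (ox (DD N s s') + oy (DD N s s') + oz (DD N s s')) % 2 = 0 := by
  cases N with
  | zero => rw [DD_zero]; decide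
  | succ N =>
    rw [DD_succ, ox_add, oy_add, oz_add, ox_smul, oy_smul, oz_smul]
    have := sum_even (s' 0) (s 0)
    omega

theorem par_inj : ∀ a c : Fin 4, ox (tv a - tv c) % 2 = 0 → oy (tv a - tv c) % 2 = 0 →
    oz (tv a - tv c) % 2 = 0 → a = c := by
  decide

theorem DD_eq_zero : ∀ (N : ℕ) (s s' : ℕ → Fin 4), DD N s s' = 0 → ∀ k < N, s k = s' k
  | 0, _, _, _, k, hk => absurd hk (by omega)
  | N + 1, s, s', h, k, hk => by
    rw [DD_succ] at h
    have h1 := congrArg ox h
    have h2 := congrArg oy h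
    have h3 := congrArg oz h
    rw [ox_add, ox_smul] at h1
    rw [oy_add, oy_smul] at h2
    rw [oz_add, oz_smul] at h3
    have z1 : ox (0 : ℤ × ℤ × ℤ) = 0 := rfl
    have z2 : oy (0 : ℤ × ℤ × ℤ) = 0 := rfl
    have z3 : oz (0 : ℤ × ℤ × ℤ) = 0 := rfl
    rw [z1] at h1
    rw [z2] at h2
    rw [z3] at h3
    have h0 : s' 0 = s 0 := par_inj _ _ (by omega) (by omega) (by omega)
    have hd : DD N (tl s) (tl s') = 0 := by
      rw [h0, sub_self, zero_add] at h
      exact (smul_eq_zero.1 h).resolve_left (by norm_num)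
    cases k with
    | zero => exact h0.symm
    | succ k => exact DD_eq_zero N (tl s) (tl s') hd k (by omega)

theorem four_dec : ∀ a c b b' : Fin 4, a ≠ c →
    (ox (tv a - tv c) - ox (tv b' - tv b)) % 2 = 0 →
    (oy (tv a - tv c) - oy (tv b' - tv b)) % 2 = 0 →
    (oz (tv a - tv c) - oz (tv b' - tv b)) % 2 = 0 →
    ((ox (tv a - tv c) - ox (tv b' - tv b)) + (oy (tv a - tv c) - oy (tv b' - tv b)) +
      (oz (tv a - tv c) - oz (tv b' - tv b))) % 4 = 0 →
    (b = c ∧ b' = a) ∨ (b = a ∧ b' = c) := by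
  decide

theorem DD_eq : ∀ (N : ℕ) (s s' : ℕ → Fin 4) (a c : Fin 4), a ≠ c → DD N s s' = tv a - tv c →
    ∃ n < N, (∀ k < n, s k = a ∧ s' k = c) ∧ s n = c ∧ s' n = a ∧
      ∀ k, n < k → k < N → s k = s' k
  | 0, _, _, a, c, hac, h => by
    exfalso
    rw [DD_zero] at h
    revert h hac a c
    decide
  | N + 1, s, s', a, c, hac, h => by
    have h' := h
    rw [DD_succ] at h'
    have h1 := congrArg ox h'
    have h2 := congrArg oy h'
    have h3 := congrArg oz h'
    rw [ox_add, ox_smul] at h1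
    rw [oy_add, oy_smul] at h2
    rw [oz_add, oz_smul] at h3
    have he := DD_even N (tl s) (tl s')
    rcases four_dec a c (s 0) (s' 0) hac (by omega) (by omega) (by omega) (by omega) with
      ⟨e1, e2⟩ | ⟨e1, e2⟩
    · refine ⟨0, by omega, fun k hk => absurd hk (by omega), e1, e2, ?_⟩
      have hd : DD N (tl s) (tl s') = 0 := by
        rw [e1, e2] at h'
        have : (2 : ℤ) • DD N (tl s) (tl s') = 0 := by
          have := congrArg (fun v => v - (tv a - tv c)) h'
          simpa using this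
        exact (smul_eq_zero.1 this).resolve_left (by norm_num)
      intro k hk hkN
      obtain ⟨k, rfl⟩ : ∃ l, k = l + 1 := ⟨k - 1, by omega⟩
      exact DD_eq_zero N (tl s) (tl s') hd k (by omega)
    · have hd : DD N (tl s) (tl s') = tv a - tv c := by
        rw [e1, e2] at h'
        have h4 : (2 : ℤ) • (DD N (tl s) (tl s') - (tv a - tv c)) = 0 := by
          have e : (2 : ℤ) • DD N (tl s) (tl s') = (tv a - tv c) - (tv c - tv a) := by
            rw [← h']; abel
          rw [smul_sub, e]; module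
        exact sub_eq_zero.1 ((smul_eq_zero.1 h4).resolve_left (by norm_num))
      obtain ⟨n, hn, q1, q2, q3, q4⟩ := DD_eq N (tl s) (tl s') a c hac hd
      refine ⟨n + 1, by omega, ?_, q2, q3, ?_⟩
      · intro k hk
        cases k with
        | zero => exact ⟨e1, e2⟩
        | succ k => exact q1 k (by omega)
      · intro k hk hkN
        obtain ⟨k, rfl⟩ : ∃ l, k = l + 1 := ⟨k - 1, by omega⟩
        exact q4 k (by omega) (by omega)

/-- Existence of the contact. -/
theorem exists_con : ∀ (n N : ℕ) (s : ℕ → Fin 4) (a c : Fin 4), n < N → (∀ k < n, s k = a) →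
    s n = c → ∃ s' : ℕ → Fin 4, (∀ k, n < k → s' k = s k) ∧ DD N s s' = tv a - tv c
  | 0, 0, _, _, _, h, _, _ => absurd h (by omega)
  | 0, N + 1, s, a, c, _, _, hc => by
    refine ⟨Function.update s 0 a, fun k hk => by
      rw [Function.update_of_ne]; omega, ?_⟩
    rw [DD_succ, Function.update_self, hc]
    have : tl (Function.update s 0 a) = tl s := by
      funext k
      unfold tl
      rw [Function.update_of_ne]; omega
    rw [this]
    have : DD N (tl s) (tl s) = 0 := by
      unfold DD
      apply Finset.sum_eq_zero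
      intro k _
      rw [sub_self, smul_zero]
    rw [this, smul_zero, add_zero]
  | n + 1, 0, _, _, _, h, _, _ => absurd h (by omega)
  | n + 1, N + 1, s, a, c, h, ha, hc => by
    obtain ⟨s'', q1, q2⟩ := exists_con n N (tl s) a c (by omega) (fun k hk => ha (k + 1) (by omega)) hc
    refine ⟨fun k => if k = 0 then c else s'' (k - 1), ?_, ?_⟩
    · intro k hk
      have : k ≠ 0 := by omega
      simp only [this, if_false]
      rw [q1 (k - 1) (by omega)]
      unfold tl
      congr 1
      omega
    · rw [DD_succ, if_pos rfl, ha 0 (by omega)]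
      have e : tl (fun k => if k = 0 then c else s'' (k - 1)) = s'' := by
        funext k
        simp [tl]
      rw [e, q2]
      module

end Pool.Agent.Lib_helper75.Sparse
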